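import Pool.Agent.K3h46.RB.Portions

/-!
# Sets which contain a proportion of one residue class for many primes near `N^α`

The question is whether the union of one residue class for each prime `N^α ≤ p < 2 N^α` has at least `N^(1 - o(1))`
elements in `[1, N]`. We consider, more generally, sets `E ⊆ [1, N]` which contain a fixed (small)
PROPORTION `λ` of the elements `≤ N` of a class. Let `κ ∈ (1, 2]` be an exponent of a sums-differences
inequality; `κ = 1.669587` is known and the arithmetic Kakeya conjecture says that all `κ > 1` are possible. For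
every `λ > 0`:

1. there is `C` such that for ALL integers `Q ≤ N / C` and all `E ⊆ [1, N]`
   `∑_{Q ≤ q < 2 Q} m_q ^ (κ - 1) ≤ C (|E| Q / N) ^ κ`,
   where `m_q` is the number of the classes modulo `q` of which `E` contains the proportion `λ`;
2. if, for some real numbers `β, μ`, at least `N^β` of the integers `N^α ≤ q < 2 N^α` have at least `N^μ` such classes,
   then `|E| ≥ N^(1 - α + (β + (κ - 1) μ) / κ - o(1))`;
3. for every choice `a` of residue classes, every set `E` which contains the proportion `λ` of the class `a(p)`, for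
   a proportion `θ > 0` of the primes `N^α ≤ p < 2 N^α`, has at least `N^(1 - (1 - 1/κ) α - o(1))` elements. So not only
   the union of the classes is large, but also every set which contains a positive proportion of
   a positive proportion of them. The exponent is `1 - 0.4011 α` for `κ = 1.669587`, and `1` if `κ → 1` is possible;
4. for every choice `a`: for all but `θ |P|` of the primes, all but a proportion `λ` of the elements `n ≤ N` of the
   class `a(p)` are in fewer than `N^((1 - 1/κ) α + ε)` of the chosen classes.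

Proof. Windows of length `2 l Q`. In a positive proportion of the windows `E` has at most its average size,
up to a constant, and contains a positive proportion of the at most `2 l + 1` elements of the class, hence
(Szemerédi's theorem) a progression `x + j d q`, `j ≤ k`, with `d ≤ 2 l`. The progressions are counted by the
sums-differences inequality with multiplicities (`Pool/Agent/K3h46/MU`).
-/

set_option autoImplicit false

open Filter

namespace Pool.Agent.Results.MP_bb5cc8_nt.DensePortions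

open Pool.Agent.H170R2.PC Pool.Agent.R416.CV

/-- `κ` is an exponent of sums-differences: for some finite set `S` of slopes different from `-1`,
all finite sets `A` of pairs of integers have at most
`max(|{y}|, max_{r ∈ S} |{x + r y}|) ^ κ` differences `x - y`. -/
def SumsDifferences (κ : ℝ) : Prop :=
  ∃ S : Finset ℚ, (-1 : ℚ) ∉ S ∧ ∀ A : Finset (ℤ × ℤ),
    ((A.image (fun p : ℤ × ℤ => (p.1 : ℚ) + (-1) * (p.2 : ℚ))).card : ℝ) ≤
      (((max (A.image (fun p : ℤ × ℤ => (p.2 : ℚ))).card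
        (S.sup fun r => (A.image (fun p : ℤ × ℤ => (p.1 : ℚ) + r * (p.2 : ℚ))).card) : ℕ)) : ℝ) ^ κ

open Classical in
/-- the number of the residues `r` modulo `q` such that `E` contains at least `lam N / q` integers
congruent to `r` -/
noncomputable def denseClasses (lam : ℝ) (N : ℕ) (E : Finset ℕ) (q : ℕ) : ℕ :=
  ((Finset.range q).filter fun r =>
    lam * N / q ≤ ((E.filter fun n => n % q = r).card : ℝ)).card

/-- the integers `N^α ≤ q < 2 N^α` -/
noncomputable def moduli (α : ℝ) (N : ℕ) : Finset ℕ :=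
  (Finset.range ⌈2 * (N : ℝ) ^ α⌉₊).filter fun q => (N : ℝ) ^ α ≤ q

/-- the primes `N^α ≤ p < 2 N^α` -/
noncomputable def primes (α : ℝ) (N : ℕ) : Finset ℕ := (moduli α N).filter Nat.Prime

open Classical in
/-- the number of the elements of `E` in the class `a p` modulo `p` -/
noncomputable def hits (a : (p : ℕ) → ZMod p) (E : Finset ℕ) (p : ℕ) : ℕ :=
  (E.filter fun n : ℕ => (n : ZMod p) = a p).card

open Classical in
/-- the number of the primes `N^α ≤ p < 2 N^α` with `n` in the class `a p` -/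
noncomputable def mult (α : ℝ) (N : ℕ) (a : (p : ℕ) → ZMod p) (n : ℕ) : ℕ :=
  ((primes α N).filter fun p => (n : ZMod p) = a p).card

theorem mem_moduli {α : ℝ} {N q : ℕ} :
    q ∈ moduli α N ↔ (N : ℝ) ^ α ≤ q ∧ (q : ℝ) < 2 * (N : ℝ) ^ α := by
  unfold moduli
  rw [Finset.mem_filter, Finset.mem_range, Nat.lt_ceil, and_comm]

theorem primes_eq (α : ℝ) (N : ℕ) : primes α N = PD α N := by
  ext p
  unfold primes
  rw [Finset.mem_filter, mem_moduli, mem_PD, InRange]
  tauto

theorem ev_ge (c e : ℝ) (he : 0 < e) : ∀ᶠ N : ℕ in atTop, c ≤ (N : ℝ) ^ e :=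
  ((tendsto_rpow_atTop he).comp tendsto_natCast_atTop_atTop).eventually (eventually_ge_atTop c)

/-- 2. -/
theorem part2 {κ : ℝ} (h1 : 1 < κ) {lam C : ℝ} (hC : 1 ≤ C)
    (h : ∀ N Q : ℕ, 1 ≤ Q → C * Q ≤ N → ∀ E ⊆ Finset.Icc 1 N,
      ∑ q ∈ Finset.Ico Q (2 * Q), (denseClasses lam N E q : ℝ) ^ (κ - 1) ≤
        C * ((E.card : ℝ) * Q / N) ^ κ) {α : ℝ} (hα : 0 < α) (hα1 : α < 1) {ε : ℝ} (hε : 0 < ε) :
    ∃ N₀ : ℕ, ∀ N : ℕ, N₀ ≤ N → ∀ E ⊆ Finset.Icc 1 N, ∀ β μ : ℝ,
      (N : ℝ) ^ β ≤ (((moduli α N).filter fun q =>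
        (N : ℝ) ^ μ ≤ (denseClasses lam N E q : ℝ)).card : ℝ) →
      (N : ℝ) ^ (1 - α + (β + (κ - 1) * μ) / κ - ε) ≤ (E.card : ℝ) := by
  have hκ : 0 < κ - 1 := by linarith
  have hκ0 : 0 < κ := by linarith
  obtain ⟨N₀, hN₀⟩ := eventually_atTop.1 ((ev_ge (2 * C) (1 - α) (by linarith)).and
    ((ev_ge (2 * C ^ (1 / κ)) ε hε).and (eventually_ge_atTop 1)))
  refine ⟨N₀, fun N hN E hE β μ hcount => ?_⟩
  obtain ⟨h3, h4, hN1⟩ := hN₀ N hN
  have hN0 : (0 : ℝ) < N := by exact_mod_cast hN1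
  have hN1r : (1 : ℝ) ≤ N := by exact_mod_cast hN1
  obtain ⟨L, hL⟩ : ∃ L : ℝ, L = (N : ℝ) ^ α := ⟨_, rfl⟩
  have hL1 : 1 ≤ L := by rw [hL]; exact Real.one_le_rpow hN1r hα.le
  obtain ⟨Q, hQ⟩ : ∃ Q : ℕ, Q = ⌈L⌉₊ := ⟨_, rfl⟩
  have hQ1 : 1 ≤ Q := by rw [hQ]; exact Nat.one_le_ceil_iff.2 (by linarith)
  have hQL : (Q : ℝ) ≤ 2 * L := by
    have := Nat.ceil_lt_add_one (show 0 ≤ L by linarith)
    rw [← hQ] at this
    linarith
  have hQN : C * Q ≤ N := by
    calc C * Q ≤ C * (2 * L) := by gcongr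
      _ = 2 * C * (N : ℝ) ^ α := by rw [hL]; ring
      _ ≤ (N : ℝ) ^ (1 - α) * (N : ℝ) ^ α := by gcongr
      _ = N := by rw [← Real.rpow_add hN0]; simp
  have hmain := h N Q hQ1 hQN E hE
  -- the lower bound for the sum
  have hlow : (N : ℝ) ^ (β + (κ - 1) * μ) ≤ C * ((E.card : ℝ) * Q / N) ^ κ := by
    refine le_trans ?_ hmain
    obtain ⟨F, hF⟩ : ∃ F : Finset ℕ, F = (moduli α N).filter fun q =>
      (N : ℝ) ^ μ ≤ (denseClasses lam N E q : ℝ) := ⟨_, rfl⟩
    rw [← hF] at hcount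
    have hsub : F ⊆ Finset.Ico Q (2 * Q) := by
      intro q hq
      rw [hF, Finset.mem_filter, mem_moduli, ← hL] at hq
      rw [Finset.mem_Ico, hQ]
      refine ⟨Nat.ceil_le.2 hq.1.1, ?_⟩
      have h5 : (q : ℝ) < 2 * (⌈L⌉₊ : ℕ) := by
        have := Nat.le_ceil L
        linarith [hq.1.2]
      exact_mod_cast h5
    calc (N : ℝ) ^ (β + (κ - 1) * μ) = (N : ℝ) ^ β * ((N : ℝ) ^ μ) ^ (κ - 1) := by
          rw [Real.rpow_add hN0, mul_comm (κ - 1) μ, Real.rpow_mul hN0.le]
      _ ≤ F.card * ((N : ℝ) ^ μ) ^ (κ - 1) := by gcongr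
      _ = ∑ _q ∈ F, ((N : ℝ) ^ μ) ^ (κ - 1) := by rw [Finset.sum_const, nsmul_eq_mul]
      _ ≤ ∑ q ∈ F, (denseClasses lam N E q : ℝ) ^ (κ - 1) := by
          refine Finset.sum_le_sum fun q hq => ?_
          rw [hF, Finset.mem_filter] at hq
          exact Real.rpow_le_rpow (by positivity) hq.2 hκ.le
      _ ≤ ∑ q ∈ Finset.Ico Q (2 * Q), (denseClasses lam N E q : ℝ) ^ (κ - 1) :=
          Finset.sum_le_sum_of_subset_of_nonneg hsub fun _ _ _ => by positivity
  -- the root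
  have hroot : (N : ℝ) ^ ((β + (κ - 1) * μ) / κ) ≤ C ^ (1 / κ) * ((E.card : ℝ) * Q / N) := by
    have h5 := Real.rpow_le_rpow (by positivity) hlow (show 0 ≤ 1 / κ by positivity)
    rw [← Real.rpow_mul hN0.le, Real.mul_rpow (by positivity) (by positivity),
      ← Real.rpow_mul (by positivity), mul_one_div, mul_one_div_cancel hκ0.ne', Real.rpow_one] at h5
    exact h5
  have h5 : (E.card : ℝ) * Q / N ≤ E.card * (2 * L) / N := by gcongr
  have h6 : (N : ℝ) ^ ((β + (κ - 1) * μ) / κ) ≤ (N : ℝ) ^ ε * (E.card * L / N) := by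
    calc (N : ℝ) ^ ((β + (κ - 1) * μ) / κ) ≤ C ^ (1 / κ) * ((E.card : ℝ) * (2 * L) / N) :=
          hroot.trans (by gcongr)
      _ = 2 * C ^ (1 / κ) * (E.card * L / N) := by ring
      _ ≤ _ := by gcongr
  have e1 : (N : ℝ) ^ (1 - α + (β + (κ - 1) * μ) / κ - ε) =
      (N : ℝ) ^ ((β + (κ - 1) * μ) / κ) * ((N : ℝ) ^ (1 - α) / (N : ℝ) ^ ε) := by
    rw [← Real.rpow_sub hN0, ← Real.rpow_add hN0]
    congr 1
    ring
  rw [e1]
  have hNe : (0 : ℝ) < (N : ℝ) ^ ε := by positivity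
  have e2 : L * (N : ℝ) ^ (1 - α) = N := by
    rw [hL, ← Real.rpow_add hN0]
    simp
  calc (N : ℝ) ^ ((β + (κ - 1) * μ) / κ) * ((N : ℝ) ^ (1 - α) / (N : ℝ) ^ ε) ≤
        (N : ℝ) ^ ε * (E.card * L / N) * ((N : ℝ) ^ (1 - α) / (N : ℝ) ^ ε) := by gcongr
    _ = E.card * (L * (N : ℝ) ^ (1 - α)) / N := by field_simp
    _ = E.card := by rw [e2]; field_simp

/-- 3. -/
theorem part3 {κ : ℝ} (h1 : 1 < κ) {lam C : ℝ} (hC : 1 ≤ C)
    (h : ∀ N Q : ℕ, 1 ≤ Q → C * Q ≤ N → ∀ E ⊆ Finset.Icc 1 N,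
      ∑ q ∈ Finset.Ico Q (2 * Q), (denseClasses lam N E q : ℝ) ^ (κ - 1) ≤
        C * ((E.card : ℝ) * Q / N) ^ κ) {α : ℝ} (hα : 0 < α) (hα1 : α < 1) {θ ε : ℝ} (hθ : 0 < θ)
    (hε : 0 < ε) : ∃ N₀ : ℕ, ∀ N : ℕ, N₀ ≤ N → ∀ (a : (p : ℕ) → ZMod p) (E : Finset ℕ),
      E ⊆ Finset.Icc 1 N →
      θ * (primes α N).card ≤ (((primes α N).filter fun p =>
        lam * N / p ≤ (hits a E p : ℝ)).card : ℝ) →
      (N : ℝ) ^ (1 - (1 - 1 / κ) * α - ε) ≤ (E.card : ℝ) := by
  classical
  have hκ0 : 0 < κ := by linarith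
  obtain ⟨N₁, hN₁⟩ := part2 h1 hC h hα hα1 (show 0 < ε / 2 by positivity)
  have hev : ∀ᶠ N : ℕ in atTop, 4 / θ * Real.log N ≤ (N : ℝ) ^ (κ * ε / 2) := by
    have ho := (isLittleO_log_rpow_atTop (show 0 < κ * ε / 2 by positivity)).bound
      (show (0 : ℝ) < θ / 4 by positivity)
    filter_upwards [tendsto_natCast_atTop_atTop.eventually ho] with N hN
    rw [Real.norm_eq_abs, Real.norm_of_nonneg (by positivity)] at hN
    have h5 := (le_abs_self (Real.log (N : ℝ))).trans hN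
    rw [div_mul_eq_mul_div, div_le_iff₀ hθ]
    linarith
  obtain ⟨N₂, hN₂⟩ := eventually_atTop.1 (((ev_primes hα hα1).and hev).and
    (eventually_ge_atTop 1))
  refine ⟨max N₁ N₂, fun N hN a E hE hcount => ?_⟩
  obtain ⟨⟨h3, h4⟩, hN1⟩ := hN₂ N ((le_max_right _ _).trans hN)
  have hN0 : (0 : ℝ) < N := by exact_mod_cast hN1
  rw [← primes_eq] at h3
  have h5 := hN₁ N ((le_max_left _ _).trans hN) E hE (α - κ * ε / 2) 0
  have e1 : 1 - α + (α - κ * ε / 2 + (κ - 1) * 0) / κ - ε / 2 = 1 - (1 - 1 / κ) * α - ε := by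
    field_simp
    ring
  rw [e1] at h5
  refine h5 ?_
  -- the number of the moduli
  have h6 : (N : ℝ) ^ (α - κ * ε / 2) ≤ θ * (primes α N).card := by
    rw [Real.rpow_sub hN0, div_le_iff₀ (by positivity)]
    calc (N : ℝ) ^ α ≤ 4 * (((primes α N).card : ℝ) * Real.log N) := h3
      _ = θ * (primes α N).card * (4 / θ * Real.log N) := by field_simp
      _ ≤ θ * (primes α N).card * (N : ℝ) ^ (κ * ε / 2) := by gcongr
  refine h6.trans (hcount.trans (Nat.cast_le.2 (Finset.card_le_card ?_)))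
  intro p hp
  rw [Finset.mem_filter] at hp ⊢
  have hp1 := hp.1
  unfold primes at hp1
  rw [Finset.mem_filter] at hp1
  refine ⟨hp1.1, ?_⟩
  rw [Real.rpow_zero, Nat.one_le_cast, Nat.one_le_iff_ne_zero, ← Nat.pos_iff_ne_zero]
  unfold denseClasses
  rw [Finset.card_pos]
  have : NeZero p := ⟨hp1.2.ne_zero⟩
  refine ⟨(a p).val, ?_⟩
  rw [Finset.mem_filter, Finset.mem_range]
  refine ⟨ZMod.val_lt _, ?_⟩
  have e2 : hits a E p = (E.filter fun n => n % p = (a p).val).card := by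
    unfold hits
    congr 1
    ext n
    rw [Finset.mem_filter, Finset.mem_filter, ← ZMod.val_natCast]
    constructor
    · rintro ⟨h7, h8⟩
      exact ⟨h7, by rw [h8]⟩
    · rintro ⟨h7, h8⟩
      exact ⟨h7, ZMod.val_injective _ h8⟩
  rw [← e2]
  exact hp.2

/-- the number of the elements of `[1, N]` in a class -/
theorem hits_le {N p : ℕ} (a : (p : ℕ) → ZMod p) :
    (hits a (Finset.Icc 1 N) p : ℝ) ≤ N / p + 1 := by
  classical
  have h1 : hits a (Finset.Icc 1 N) p ≤ N / p + 1 := by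
    unfold hits
    have h2 : ((Finset.Icc 1 N).filter fun n : ℕ => (n : ZMod p) = a p).card ≤
        (Finset.range (N / p + 1)).card := by
      apply Finset.card_le_card_of_injOn (fun n => n / p)
      · intro n hn
        rw [Finset.mem_coe, Finset.mem_filter, Finset.mem_Icc] at hn
        rw [Finset.mem_coe, Finset.mem_range, Nat.lt_succ_iff]
        exact Nat.div_le_div_right hn.1.2
      · intro n hn m hm hnm
        rw [Finset.mem_coe, Finset.mem_filter] at hn hm
        have h3 : n % p = m % p := by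
          rw [← ZMod.val_natCast, ← ZMod.val_natCast, hn.2, hm.2]
        simp only at hnm
        rw [← Nat.div_add_mod n p, ← Nat.div_add_mod m p, h3, hnm]
    rwa [Finset.card_range] at h2
  have h2 : ((N / p : ℕ) : ℝ) ≤ N / p := Nat.cast_div_le
  have h3 : (hits a (Finset.Icc 1 N) p : ℝ) ≤ ((N / p : ℕ) : ℝ) + 1 := by exact_mod_cast h1
  linarith

theorem result :
    SumsDifferences 1.669587 ∧
    ∀ κ : ℝ, 1 < κ → κ ≤ 2 → SumsDifferences κ → ∀ lam : ℝ, 0 < lam →
      -- 1. the inequality for all moduli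
      (∃ C : ℝ, 1 ≤ C ∧ ∀ N Q : ℕ, 1 ≤ Q → C * Q ≤ N → ∀ E ⊆ Finset.Icc 1 N,
        ∑ q ∈ Finset.Ico Q (2 * Q), (denseClasses lam N E q : ℝ) ^ (κ - 1) ≤
          C * ((E.card : ℝ) * Q / N) ^ κ) ∧
      ∀ α : ℝ, 0 < α → α < 1 → ∀ ε : ℝ, 0 < ε →
        -- 2. many moduli with many dense classes
        (∃ N₀ : ℕ, ∀ N : ℕ, N₀ ≤ N → ∀ E ⊆ Finset.Icc 1 N, ∀ β μ : ℝ,
          (N : ℝ) ^ β ≤ (((moduli α N).filter fun q =>
            (N : ℝ) ^ μ ≤ (denseClasses lam N E q : ℝ)).card : ℝ) →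
          (N : ℝ) ^ (1 - α + (β + (κ - 1) * μ) / κ - ε) ≤ (E.card : ℝ)) ∧
        ∀ θ : ℝ, 0 < θ →
          -- 3. a proportion of the classes of a proportion of the primes
          (∃ N₀ : ℕ, ∀ N : ℕ, N₀ ≤ N → ∀ (a : (p : ℕ) → ZMod p) (E : Finset ℕ),
            E ⊆ Finset.Icc 1 N →
            θ * (primes α N).card ≤ (((primes α N).filter fun p =>
              lam * N / p ≤ (hits a E p : ℝ)).card : ℝ) →
            (N : ℝ) ^ (1 - (1 - 1 / κ) * α - ε) ≤ (E.card : ℝ)) ∧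
          -- 4. the multiplicities
          ∃ N₀ : ℕ, ∀ N : ℕ, N₀ ≤ N → ∀ a : (p : ℕ) → ZMod p,
            (((primes α N).filter fun p => lam * N / p ≤
              (hits a ((Finset.Icc 1 N).filter fun n =>
                (N : ℝ) ^ ((1 - 1 / κ) * α + ε) ≤ (mult α N a n : ℝ)) p : ℝ)).card : ℝ) ≤
              θ * (primes α N).card := by
  classical
  refine ⟨Pool.Agent.K3h46.MU.sdc_bound, fun κ h1 h2 hSD lam hlam => ?_⟩
  obtain ⟨S, hS, hB⟩ := hSD
  obtain ⟨C, hC, hmain⟩ : ∃ C : ℝ, 1 ≤ C ∧ ∀ N Q : ℕ, 1 ≤ Q → C * Q ≤ N → ∀ E ⊆ Finset.Icc 1 N,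
      ∑ q ∈ Finset.Ico Q (2 * Q), (denseClasses lam N E q : ℝ) ^ (κ - 1) ≤
        C * ((E.card : ℝ) * Q / N) ^ κ :=
    Pool.Agent.K3h46.RB.portions h1 h2 hS hB lam hlam
  refine ⟨⟨C, hC, hmain⟩, fun α hα hα1 ε hε => ⟨part2 h1 hC hmain hα hα1 hε, fun θ hθ =>
    ⟨part3 h1 hC hmain hα hα1 hθ hε, ?_⟩⟩⟩
  obtain ⟨N₁, hN₁⟩ := part3 h1 hC hmain hα hα1 hθ (show 0 < ε / 2 by positivity)
  obtain ⟨N₂, hN₂⟩ := eventually_atTop.1 ((ev_ge 5 (ε / 2) (by positivity)).and
    ((ev_ge 2 (1 - α) (by linarith)).and (eventually_ge_atTop 1)))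
  refine ⟨max N₁ N₂, fun N hN a => ?_⟩
  obtain ⟨h5, h6, hN1⟩ := hN₂ N ((le_max_right _ _).trans hN)
  have hN0 : (0 : ℝ) < N := by exact_mod_cast hN1
  by_contra hcon
  push Not at hcon
  obtain ⟨T, hT⟩ : ∃ T : ℝ, T = (N : ℝ) ^ ((1 - 1 / κ) * α + ε) := ⟨_, rfl⟩
  have hT0 : 0 < T := by rw [hT]; positivity
  obtain ⟨E, hE⟩ : ∃ E : Finset ℕ, E = (Finset.Icc 1 N).filter fun n => T ≤ (mult α N a n : ℝ) :=
    ⟨_, rfl⟩
  rw [← hT, ← hE] at hcon
  have h7 := hN₁ N ((le_max_left _ _).trans hN) a E (by rw [hE]; exact Finset.filter_subset _ _)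
    hcon.le
  -- the number of all pairs
  have h8 : (E.card : ℝ) * T ≤ 4 * N := by
    calc (E.card : ℝ) * T = ∑ _n ∈ E, T := by rw [Finset.sum_const, nsmul_eq_mul]
      _ ≤ ∑ n ∈ E, (mult α N a n : ℝ) := by
          refine Finset.sum_le_sum fun n hn => ?_
          rw [hE, Finset.mem_filter] at hn
          exact hn.2
      _ ≤ ∑ n ∈ Finset.Icc 1 N, (mult α N a n : ℝ) := by
          refine Finset.sum_le_sum_of_subset_of_nonneg ?_ fun _ _ _ => Nat.cast_nonneg _
          rw [hE]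
          exact Finset.filter_subset _ _
      _ = ∑ p ∈ primes α N, (hits a (Finset.Icc 1 N) p : ℝ) := by
          have := Finset.sum_card_bipartiteAbove_eq_sum_card_bipartiteBelow
            (fun (n p : ℕ) => (n : ZMod p) = a p) (s := Finset.Icc 1 N) (t := primes α N)
          unfold Finset.bipartiteAbove Finset.bipartiteBelow at this
          unfold mult hits
          exact_mod_cast this
      _ ≤ ∑ _p ∈ primes α N, (2 * (N : ℝ) ^ (1 - α)) := by
          refine Finset.sum_le_sum fun p hp => ?_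
          unfold primes at hp
          rw [Finset.mem_filter, mem_moduli] at hp
          have hp0 : (0 : ℝ) < (N : ℝ) ^ α := by positivity
          have h9 : (N : ℝ) / p ≤ (N : ℝ) ^ (1 - α) := by
            rw [Real.rpow_sub hN0, Real.rpow_one]
            gcongr
            exact hp.1.1
          have h10 := hits_le (N := N) (p := p) a
          linarith
      _ = (primes α N).card * (2 * (N : ℝ) ^ (1 - α)) := by rw [Finset.sum_const, nsmul_eq_mul]
      _ ≤ (2 * (N : ℝ) ^ α) * (2 * (N : ℝ) ^ (1 - α)) := by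
          gcongr
          have h9 : primes α N ⊆ (Finset.range ⌈2 * (N : ℝ) ^ α⌉₊).erase 0 := by
            intro p hp
            unfold primes at hp
            rw [Finset.mem_filter, mem_moduli] at hp
            rw [Finset.mem_erase, Finset.mem_range, Nat.lt_ceil]
            exact ⟨hp.2.ne_zero, hp.1.2⟩
          have h10 := Finset.card_le_card h9
          have h11 : (0 : ℝ) < (N : ℝ) ^ α := by positivity
          rw [Finset.card_erase_of_mem (by
            rw [Finset.mem_range]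
            exact Nat.ceil_pos.2 (by positivity)), Finset.card_range] at h10
          have h12 := Nat.ceil_lt_add_one (show 0 ≤ 2 * (N : ℝ) ^ α by positivity)
          have h13 : 1 ≤ ⌈2 * (N : ℝ) ^ α⌉₊ := Nat.one_le_ceil_iff.2 (by positivity)
          have h14 : ((primes α N).card : ℝ) ≤ ((⌈2 * (N : ℝ) ^ α⌉₊ - 1 : ℕ) : ℝ) := by
            exact_mod_cast h10
          rw [Nat.cast_sub h13] at h14
          push_cast at h14
          linarith
      _ = 4 * N := by
          have : (N : ℝ) ^ α * (N : ℝ) ^ (1 - α) = N := by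
            rw [← Real.rpow_add hN0]; simp
          calc (2 * (N : ℝ) ^ α) * (2 * (N : ℝ) ^ (1 - α)) =
                4 * ((N : ℝ) ^ α * (N : ℝ) ^ (1 - α)) := by ring
            _ = 4 * N := by rw [this]
  have h9 : 5 * (N : ℝ) ≤ E.card * T := by
    calc 5 * (N : ℝ) ≤ (N : ℝ) ^ (ε / 2) * N := by gcongr
      _ = (N : ℝ) ^ (1 - (1 - 1 / κ) * α - ε / 2) * T := by
          rw [hT, ← Real.rpow_add hN0]
          nth_rewrite 2 [← Real.rpow_one (N : ℝ)]
          rw [← Real.rpow_add hN0]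
          congr 1
          ring
      _ ≤ E.card * T := by gcongr
  linarith

end Pool.Agent.Results.MP_bb5cc8_nt.DensePortions
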