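import Pool.Agent.K3h46.MU.Asym

/-!
# Covering `[1, N]` by one residue class for each prime near `N^α`: the number of bad choices

`1 / 2 < α < 1`. A choice `a` consists of one residue class modulo each of the primes `N^α ≤ p < 2 N^α`; there
are `M = ∏ p` choices, and `S_a(N)` is the number of integers of `[1, N]` in at least one chosen class.
Let `κ ∈ (1, 2]` be an exponent of a sums-differences inequality; `κ = 1.669587` is known. The starting
files show that `S_a(N) ≥ N^(1 - (1 - 1/κ) α - o(1))` for ALL choices, and that at most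
`M^((2α - 1 - ε)/α + o(1))` choices have `S_a(N) ≤ N^(1 - ε)` (by the large sieve). We prove:

1. for every `ε > 0` at most `M^(1 - κ ε / ((κ - 1) α) + o(1))` choices have `S_a(N) ≤ N^(1 - ε)` (`M^(o(1))` if the
   exponent is negative). This is smaller than the bound above for `(κ - 1)(1 - α) < ε < 2 α - 1`. For `κ = 1.669587`
   the exponent is `1 - 2.4934… ε / α`, and it tends to `1 - ∞` as `κ → 1`.
2. Let `A(p)` be ANY sets of at least `N^μ` classes modulo `p`, `0 < μ < α`. All but a proportion `N^(-c K)` of the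
   choices with `a(p) ∈ A(p)` have `S_a(N) ≥ N^(1 - (1 - 1/κ)(α - μ) - δ)`; here `K` is the number of the primes, and
   `c > 0` and `N₀` depend only on `κ, α, μ, δ`.

Proof. Sums-differences with multiplicities (`Pool/Agent/K3h46/MU`): if a set `T` contains `m_p` progressions
`x, x + p, …, x + (k - 1) p` for each `p`, then `∑_p m_p^(κ - 1) ≤ |T|^κ`. If the union of the classes of `a` has
`X` elements, choose the windows of length `O(N^α)` in which it has at most the average size, and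
greedily `O(X N^(α - 1))` primes whose classes cover, for every other prime, the first `k` elements of its
class in half of these windows. The inequality in the windows bounds the number of the
classes which can be chosen for the other primes.
-/

set_option autoImplicit false

namespace Pool.Agent.Results.MP_bb5cc8_nt.FewSmallChoices

open Pool.Agent.H170R2.PC Pool.Agent.R416.CV

/-- `κ` is an exponent of sums-differences: for some finite set `S` of slopes different from `-1`,
all finite sets `A` of pairs of integers have at most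
`max(|{y}|, max_{r ∈ S} |{x + r y}|) ^ κ` differences `x - y`. -/
def SumsDifferences (κ : ℝ) : Prop :=
  ∃ S : Finset ℚ, (-1 : ℚ) ∉ S ∧ ∀ A : Finset (ℤ × ℤ),
    ((A.image (fun p : ℤ × ℤ => (p.1 : ℚ) + (-1) * (p.2 : ℚ))).card : ℝ) ≤
      (((max (A.image (fun p : ℤ × ℤ => (p.2 : ℚ))).card
        (S.sup fun r => (A.image (fun p : ℤ × ℤ => (p.1 : ℚ) + r * (p.2 : ℚ))).card) : ℕ)) : ℝ) ^ κ

/-- the choices all of whose classes are in the given sets -/
def InFamily {α : ℝ} {N : ℕ} (A : (p : {p : ℕ // InRange α N p}) → Finset (ZMod p.1))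
    (a : Choice α N) : Prop := ∀ p, a p ∈ A p

theorem family_card {α μ : ℝ} {N : ℕ} (hN : 1 ≤ N)
    (A : (p : {p : ℕ // InRange α N p}) → Finset (ZMod p.1))
    (hA : ∀ p, (N : ℝ) ^ μ ≤ ((A p).card : ℝ)) :
    Real.exp ((PD α N).card * (μ * Real.log N)) ≤ (Nat.card {a : Choice α N // InFamily A a} : ℝ) := by
  classical
  have hN0 : (0 : ℝ) < N := by exact_mod_cast hN
  have : Fintype {p : ℕ // InRange α N p} := Fintype.ofEquiv _ (eqv α N)
  have e1 : Nat.card {a : Choice α N // InFamily A a} = ∏ p, (A p).card := by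
    have : Nat.card {a : Choice α N // InFamily A a} =
        Nat.card ((p : {p : ℕ // InRange α N p}) → {x : ZMod p.1 // x ∈ A p}) :=
      Nat.card_congr (Equiv.subtypePiEquivPi (p := fun (p : {p : ℕ // InRange α N p})
        (x : ZMod p.1) => x ∈ A p))
    rw [this, Nat.card_pi]
    apply Finset.prod_congr rfl
    intro p _
    rw [Nat.card_eq_fintype_card, Fintype.card_coe]
  rw [e1, Real.exp_nat_mul]
  push_cast
  have e2 : (PD α N).card = Fintype.card {p : ℕ // InRange α N p} := by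
    rw [← numPrimes_eq, numPrimes, Nat.card_eq_fintype_card]
  rw [e2, ← Finset.card_univ, ← Finset.prod_const]
  apply Finset.prod_le_prod
  · intro p _; positivity
  · intro p _
    have : Real.exp (μ * Real.log N) = (N : ℝ) ^ μ := by
      rw [Real.rpow_def_of_pos hN0, mul_comm]
    rw [this]
    exact hA p

theorem finite_choice (α : ℝ) (N : ℕ) : Finite (Choice α N) := by
  have : Fintype {p : ℕ // InRange α N p} := Fintype.ofEquiv _ (eqv α N)
  have : ∀ p : {p : ℕ // InRange α N p}, Finite (ZMod p.1) := by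
    intro p
    have : NeZero p.1 := ⟨p.2.1.ne_zero⟩
    infer_instance
  infer_instance

theorem result :
    SumsDifferences 1.669587 ∧
    ∀ κ : ℝ, 1 < κ → κ ≤ 2 → SumsDifferences κ → ∀ α : ℝ, 1 / 2 < α → α < 1 →
      -- 1. the number of all choices with a small union
      (∀ ε η : ℝ, 0 < ε → 0 < η → ∃ N₀ : ℕ, ∀ N : ℕ, N₀ ≤ N →
        (numSmall α N ((N : ℝ) ^ (1 - ε)) : ℝ) ≤
          (numChoices α N : ℝ) ^ (max 0 (1 - κ / (κ - 1) * ε / α) + η)) ∧
      -- 2. families of choices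
      (∀ μ δ : ℝ, 0 < μ → μ < α → 0 < δ → ∃ c : ℝ, 0 < c ∧ ∃ N₀ : ℕ, ∀ N : ℕ, N₀ ≤ N →
        ∀ A : (p : {p : ℕ // InRange α N p}) → Finset (ZMod p.1),
          (∀ p, (N : ℝ) ^ μ ≤ ((A p).card : ℝ)) →
          (Nat.card {a : Choice α N // InFamily A a ∧
              (S α N a : ℝ) < (N : ℝ) ^ (1 - (1 - 1 / κ) * (α - μ) - δ)} : ℝ) ≤
            (N : ℝ) ^ (-c * numPrimes α N) * (Nat.card {a : Choice α N // InFamily A a} : ℝ)) := by
  refine ⟨Pool.Agent.K3h46.MU.sdc_bound, fun κ h1 h2 hSD α hα hα1 => ?_⟩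
  have hmain := fun ε η (hε : 0 < ε) (hη : 0 < η) =>
    Pool.Agent.K3h46.MU.main_small h1 h2 hSD hα hα1 (ε := ε) (η := η) hε hη
  refine ⟨hmain, ?_⟩
  intro μ δ hμ hμα hδ
  have hκ : 0 < κ - 1 := by linarith
  have hα0 : 0 < α := by linarith
  obtain ⟨δ', hδ'⟩ : ∃ δ', δ' = min δ ((κ - 1) * μ / (2 * κ)) := ⟨_, rfl⟩
  have hδ'0 : 0 < δ' := by rw [hδ']; exact lt_min hδ (by positivity)
  have hδ'1 : δ' ≤ δ := by rw [hδ']; exact min_le_left _ _
  have hδ'2 : δ' ≤ (κ - 1) * μ / (2 * κ) := by rw [hδ']; exact min_le_right _ _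
  obtain ⟨τ, hτ⟩ : ∃ τ, τ = κ / (κ - 1) * δ' := ⟨_, rfl⟩
  have hτ0 : 0 < τ := by rw [hτ]; positivity
  have hτμ : τ ≤ μ / 2 := by
    rw [hτ]
    calc κ / (κ - 1) * δ' ≤ κ / (κ - 1) * ((κ - 1) * μ / (2 * κ)) := by gcongr
      _ = μ / 2 := by field_simp
  obtain ⟨ε, hε⟩ : ∃ ε, ε = (1 - 1 / κ) * (α - μ) + δ' := ⟨_, rfl⟩
  have hε0 : 0 < ε := by
    rw [hε]
    have : 0 < 1 - 1 / κ := by
      rw [sub_pos, div_lt_one (by linarith)]
      exact h1
    have h3 : 0 < α - μ := by linarith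
    positivity
  have hθ1 : 1 - κ / (κ - 1) * ε / α = (μ - τ) / α := by
    rw [hε, hτ]
    field_simp
    ring
  have hμτ : 0 < μ - τ := by linarith
  obtain ⟨θ, hθ⟩ : ∃ θ, θ = (μ - τ) / α + τ / (4 * α) := ⟨_, rfl⟩
  have hθ0 : 0 ≤ θ := by rw [hθ]; positivity
  obtain ⟨N₁, hN₁⟩ := hmain ε (τ / (4 * α)) hε0 (by positivity)
  have hlog : Filter.Tendsto (fun N : ℕ => Real.log (N : ℝ)) Filter.atTop Filter.atTop :=
    Real.tendsto_log_atTop.comp tendsto_natCast_atTop_atTop
  obtain ⟨N₂, hN₂⟩ := Filter.eventually_atTop.1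
    ((hlog.eventually (Filter.eventually_ge_atTop (θ * Real.log 2 / (τ / 4)))).and
      (Filter.eventually_ge_atTop 1))
  refine ⟨τ / 2, by positivity, max N₁ N₂, fun N hN A hA => ?_⟩
  obtain ⟨hl, hN1⟩ := hN₂ N ((le_max_right _ _).trans hN)
  have hN0 : (0 : ℝ) < N := by exact_mod_cast hN1
  have hN1r : (1 : ℝ) ≤ N := by exact_mod_cast hN1
  have hsm := hN₁ N ((le_max_left _ _).trans hN)
  rw [hθ1, max_eq_right (by positivity), ← hθ] at hsm
  obtain ⟨ℓ, hℓ⟩ : ∃ ℓ, ℓ = Real.log N := ⟨_, rfl⟩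
  obtain ⟨K, hK⟩ : ∃ K, K = (PD α N).card := ⟨_, rfl⟩
  rw [← hℓ, div_le_iff₀ (by positivity)] at hl
  have hK0 : (0 : ℝ) ≤ K := Nat.cast_nonneg _
  have hfin := finite_choice α N
  -- the bad members of the family are among the choices with a small union
  have a1 : (Nat.card {a : Choice α N // InFamily A a ∧
      (S α N a : ℝ) < (N : ℝ) ^ (1 - (1 - 1 / κ) * (α - μ) - δ)} : ℝ) ≤
      (numSmall α N ((N : ℝ) ^ (1 - ε)) : ℝ) := by
    unfold numSmall
    have hexp : (N : ℝ) ^ (1 - (1 - 1 / κ) * (α - μ) - δ) ≤ (N : ℝ) ^ (1 - ε) := by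
      apply Real.rpow_le_rpow_of_exponent_le hN1r
      rw [hε]
      linarith
    exact_mod_cast Nat.card_le_card_of_injective
      (fun a : {a : Choice α N // InFamily A a ∧
        (S α N a : ℝ) < (N : ℝ) ^ (1 - (1 - 1 / κ) * (α - μ) - δ)} =>
        (⟨a.1, (a.2.2.le.trans hexp)⟩ : {a : Choice α N // (S α N a : ℝ) ≤ (N : ℝ) ^ (1 - ε)}))
      (by
        intro a b hab
        apply Subtype.ext
        have h := congrArg (fun x : {a : Choice α N // (S α N a : ℝ) ≤ (N : ℝ) ^ (1 - ε)} => x.1) hab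
        exact h)
  have a2 : (numChoices α N : ℝ) ^ θ ≤ Real.exp (K * (μ * ℓ) - K * (τ / 2 * ℓ)) := by
    have b1 := Pool.Agent.K3h46.MU.choices_le (α := α) hN1
    rw [← hK, ← hℓ] at b1
    calc (numChoices α N : ℝ) ^ θ ≤ (Real.exp (K * (Real.log 2 + α * ℓ))) ^ θ :=
          Real.rpow_le_rpow (Nat.cast_nonneg _) b1 hθ0
      _ = Real.exp (K * (Real.log 2 + α * ℓ) * θ) := by rw [← Real.exp_mul]
      _ ≤ _ := by
          apply Real.exp_le_exp.2
          have b2 : α * ℓ * θ = (μ - τ) * ℓ + τ / 4 * ℓ := by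
            rw [hθ]
            field_simp
          have b3 : K * (Real.log 2 + α * ℓ) * θ = K * (θ * Real.log 2 + α * ℓ * θ) := by ring
          rw [b3, b2]
          have b4 : K * (μ * ℓ) - K * (τ / 2 * ℓ) = K * (μ * ℓ - τ / 2 * ℓ) := by ring
          rw [b4]
          apply mul_le_mul_of_nonneg_left _ hK0
          linarith
  have a3 := family_card hN1 A hA
  rw [← hK, ← hℓ] at a3
  have a4 : (N : ℝ) ^ (-(τ / 2) * numPrimes α N) = Real.exp (-(K * (τ / 2 * ℓ))) := by
    rw [Real.rpow_def_of_pos hN0, ← hℓ, numPrimes_eq, ← hK]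
    congr 1
    ring
  calc _ ≤ _ := a1
    _ ≤ _ := hsm
    _ ≤ _ := a2
    _ = Real.exp (-(K * (τ / 2 * ℓ))) * Real.exp (K * (μ * ℓ)) := by
        rw [← Real.exp_add]
        congr 1
        ring
    _ ≤ _ := by
        rw [a4]
        gcongr

end Pool.Agent.Results.MP_bb5cc8_nt.FewSmallChoices
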