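import Pool.Agent.K3h46.FP.Bound

/-!
# Proportions of several residue classes for many primes near `N^α`, `1/2 < α < 1`: flags

Let `E ⊆ [1, N]` contain a fixed proportion `λ` of the elements `≤ N` of at least `m` residue classes, for each of
at least `B` primes `Q ≤ p < 2 Q`, where `√N ≤ Q ≤ N / C`. Let `X = N / Q`, and let `κ ∈ (1, 2]` be an exponent of a
sums-differences inequality; `κ = 1.669587` is known. Then, with `c > 0` depending only on `κ` and `λ`,

`|E| ≥ c min (X B m, (X^3 B^κ m^(κ - 1))^(1 / (1 + κ)), (X^3 B m^(κ - 1))^(1/2))`.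

For one class per prime (`m = 1`) and all primes near `N^α` this is the exponent
`e(α) = min (3/2 - α, (3 - (3 - κ) α) / (1 + κ))`, which the starting files prove for the UNION of the classes. Here
it is proved for every set that contains a positive proportion of a positive proportion of them. So
for every choice `a`, all but a small proportion of the pairs `(p, n)`, `n ≤ N` in the class `a(p)`, have `n` in
fewer than `N^(1 - e(α) + ε)` of the chosen classes.

Proof. Szemerédi's theorem in the form of Varnavides gives in each dense portion a positive proportion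
of elements at which many progressions `x, x + d q, …, x + k d q` of the portion start. If `x` is such
an element for a class modulo `q` and for a class modulo `p`, this is a flag over the stem `p`. The flags over
a stem with given `d q` modulo `p` have all their terms in `k` given residue classes modulo `p`, and their
differences `d q` determine `q`, and `x` up to `m` possibilities. So their number is bounded by the
sums-differences inequality with multiplicities (`Pool/Agent/K3h46/MU`), which gives the gain `m^(κ - 1)`.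
The numbers of elements of `E` in the residue classes modulo `p` are controlled by the second moment.
-/

set_option autoImplicit false

open Filter

namespace Pool.Agent.Results.MP_bb5cc8_nt.FlagPortions

open Pool.Agent.H170R2.PC Pool.Agent.R416.CV

/-- `κ` is an exponent of sums-differences: for some finite set `S` of slopes different from `-1`,
all finite sets `A` of pairs of integers have at most
`max(|{y}|, max_{r ∈ S} |{x + r y}|) ^ κ` differences `x - y`. -/
def SumsDifferences (κ : ℝ) : Prop :=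
  ∃ S : Finset ℚ, (-1 : ℚ) ∉ S ∧ ∀ A : Finset (ℤ × ℤ),
    ((A.image (fun p : ℤ × ℤ => (p.1 : ℚ) + (-1) * (p.2 : ℚ))).card : ℝ) ≤
      (((max (A.image (fun p : ℤ × ℤ => (p.2 : ℚ))).card
        (S.sup fun r => (A.image (fun p : ℤ × ℤ => (p.1 : ℚ) + r * (p.2 : ℚ))).card) : ℕ)) : ℝ) ^ κ

open Classical in
/-- the residues `r` modulo `q` such that `E` contains at least `lam N / q` integers
congruent to `r` -/
noncomputable def denseSet (lam : ℝ) (N : ℕ) (E : Finset ℕ) (q : ℕ) : Finset ℕ :=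
  (Finset.range q).filter fun r =>
    lam * N / q ≤ ((E.filter fun n => n % q = r).card : ℝ)

/-- the primes `N^α ≤ p < 2 N^α` -/
noncomputable def primes (α : ℝ) (N : ℕ) : Finset ℕ :=
  (Finset.range ⌈2 * (N : ℝ) ^ α⌉₊).filter fun p => p.Prime ∧ (N : ℝ) ^ α ≤ p

open Classical in
/-- the number of the elements of `E` in the class `a p` modulo `p` -/
noncomputable def hits (a : (p : ℕ) → ZMod p) (E : Finset ℕ) (p : ℕ) : ℕ :=
  (E.filter fun n : ℕ => (n : ZMod p) = a p).card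

open Classical in
/-- the number of the primes `N^α ≤ p < 2 N^α` with `n` in the class `a p` -/
noncomputable def mult (α : ℝ) (N : ℕ) (a : (p : ℕ) → ZMod p) (n : ℕ) : ℕ :=
  ((primes α N).filter fun p => (n : ZMod p) = a p).card

/-- the lower bound, for `X = N / Q` -/
noncomputable def low (κ X B m : ℝ) : ℝ :=
  min (X * B * m) (min ((X ^ 3 * B ^ κ * m ^ (κ - 1)) ^ (1 / (1 + κ)))
    ((X ^ 3 * B * m ^ (κ - 1)) ^ (1 / 2 : ℝ)))

/-- the exponent for `N^β` primes and `N^μ` classes per prime -/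
noncomputable def expo (κ α β μ : ℝ) : ℝ :=
  min (1 - α + β + μ) (min ((3 - 3 * α + κ * β + (κ - 1) * μ) / (1 + κ))
    ((3 - 3 * α + β + (κ - 1) * μ) / 2))

theorem mem_primes {α : ℝ} {N p : ℕ} :
    p ∈ primes α N ↔ p.Prime ∧ (N : ℝ) ^ α ≤ p ∧ (p : ℝ) < 2 * (N : ℝ) ^ α := by
  unfold primes
  rw [Finset.mem_filter, Finset.mem_range, Nat.lt_ceil]
  tauto

theorem primes_eq (α : ℝ) (N : ℕ) : primes α N = PD α N := by
  ext p
  rw [mem_primes, mem_PD, InRange]

theorem ev_ge (c e : ℝ) (he : 0 < e) : ∀ᶠ N : ℕ in atTop, c ≤ (N : ℝ) ^ e :=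
  ((tendsto_rpow_atTop he).comp tendsto_natCast_atTop_atTop).eventually (eventually_ge_atTop c)

/-- 1. the explicit inequality -/
theorem part1 {κ : ℝ} (h1 : 1 < κ) (h2 : κ ≤ 2) (hSD : SumsDifferences κ) (lam : ℝ)
    (hlam : 0 < lam) : ∃ c C : ℝ, 0 < c ∧ 2 ≤ C ∧ ∀ N Q : ℕ, 1 ≤ Q → C * Q ≤ N → N ≤ Q * Q →
      ∀ E ⊆ Finset.Icc 1 N, ∀ B m : ℕ,
        B ≤ ((Finset.Ico Q (2 * Q)).filter fun p =>
          p.Prime ∧ m ≤ (denseSet lam N E p).card).card →
        c * low κ (N / Q) B m ≤ (E.card : ℝ) := by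
  classical
  obtain ⟨S, hS, hB⟩ := hSD
  obtain ⟨c, C, hc, hC, hmain⟩ := Pool.Agent.K3h46.FP.main_ineq h1 h2 hS hB lam hlam
  have hκ : 0 < κ - 1 := by linarith
  obtain ⟨c', hc'⟩ : ∃ c' : ℝ, c' = min c (min ((c / 2) ^ (1 / (1 + κ))) ((c / 2) ^ (1 / 2 : ℝ))) :=
    ⟨_, rfl⟩
  have hc'0 : 0 < c' := by
    rw [hc']
    exact lt_min hc (lt_min (by positivity) (by positivity))
  refine ⟨c', C, hc'0, hC, fun N Q hQ hCN hNQ E hE B m hBm => ?_⟩
  have hQ0 : (0 : ℝ) < Q := by exact_mod_cast hQ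
  have hN0 : (0 : ℝ) < N := lt_of_lt_of_le (by positivity) hCN
  have hX0 : (0 : ℝ) < (N : ℝ) / Q := by positivity
  have hE0 : (0 : ℝ) ≤ E.card := Nat.cast_nonneg _
  -- degenerate cases
  rcases Nat.eq_zero_or_pos B with hB0 | hB0
  · refine le_trans ?_ hE0
    have : low κ (N / Q) B m ≤ 0 := by
      unfold low
      refine (min_le_left _ _).trans (le_of_eq ?_)
      rw [hB0]
      simp
    nlinarith
  rcases Nat.eq_zero_or_pos m with hm0 | hm0
  · refine le_trans ?_ hE0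
    have : low κ (N / Q) B m ≤ 0 := by
      unfold low
      refine (min_le_left _ _).trans (le_of_eq ?_)
      rw [hm0]
      simp
    nlinarith
  obtain ⟨P, hP⟩ : ∃ P : Finset ℕ, P = (Finset.Ico Q (2 * Q)).filter fun p =>
      p.Prime ∧ m ≤ (denseSet lam N E p).card := ⟨_, rfl⟩
  rw [← hP] at hBm
  have hR : ∀ q ∈ P, ∃ R : Finset ℕ, R ⊆ denseSet lam N E q ∧ R.card = m := by
    intro q hq
    rw [hP, Finset.mem_filter] at hq
    exact Finset.exists_subset_card_eq hq.2.2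
  choose! R hR1 hR2 using hR
  have hPc : B ≤ P.card := hBm
  have hPcr : (B : ℝ) ≤ P.card := by exact_mod_cast hPc
  have hB0r : (0 : ℝ) < B := by exact_mod_cast hB0
  have hP0r : (0 : ℝ) < P.card := by linarith
  have hm0r : (0 : ℝ) < m := by exact_mod_cast hm0
  have key := hmain N Q hQ hCN hNQ E hE P (by rw [hP]; exact Finset.filter_subset _ _)
    (fun p hp => by rw [hP, Finset.mem_filter] at hp; exact hp.2.1) R m (fun q hq => by
      refine ⟨hR2 q hq, fun r hr => ?_⟩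
      have h3 := hR1 q hq hr
      unfold denseSet at h3
      rw [Finset.mem_filter, Finset.mem_range] at h3
      exact h3)
  have hlow0 : 0 ≤ low κ (N / Q) B m := by
    unfold low
    exact le_min (by positivity) (le_min (by positivity) (by positivity))
  rcases key with key | key
  · calc c' * low κ (N / Q) B m ≤ c * (N / Q * B * m) := by
          apply mul_le_mul (by rw [hc']; exact min_le_left _ _) (min_le_left _ _) hlow0 hc.le
      _ = c * (N / Q) * B * m := by ring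
      _ ≤ c * (N / Q) * P.card * m := by gcongr
      _ ≤ E.card := key
  · -- the set is not empty
    have hEpos : (0 : ℝ) < E.card := by
      rcases hE0.eq_or_lt with h0 | h0
      · rw [← h0, zero_mul] at key
        have : 0 < c * ((N : ℝ) / Q) ^ 3 * (P.card : ℝ) ^ 2 * (m : ℝ) ^ 2 := by positivity
        linarith
      · exact h0
    rcases Pool.Agent.K3h46.FP.explicit h1 h2 hEpos hX0 hP0r hm0r hc key with h3 | h3
    · calc c' * low κ (N / Q) B m ≤ (c / 2) ^ (1 / (1 + κ)) *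
            (((N : ℝ) / Q) ^ 3 * (B : ℝ) ^ κ * (m : ℝ) ^ (κ - 1)) ^ (1 / (1 + κ)) := by
            apply mul_le_mul _ _ hlow0 (by positivity)
            · rw [hc']
              exact (min_le_right _ _).trans (min_le_left _ _)
            · exact (min_le_right _ _).trans (min_le_left _ _)
        _ = (c / 2 * (((N : ℝ) / Q) ^ 3 * (B : ℝ) ^ κ * (m : ℝ) ^ (κ - 1))) ^ (1 / (1 + κ)) := by
            rw [← Real.mul_rpow (by positivity) (by positivity)]
        _ ≤ (c / 2 * (((N : ℝ) / Q) ^ 3 * (P.card : ℝ) ^ κ * (m : ℝ) ^ (κ - 1))) ^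
              (1 / (1 + κ)) := by gcongr
        _ ≤ E.card := h3
    · calc c' * low κ (N / Q) B m ≤ (c / 2) ^ (1 / 2 : ℝ) *
            (((N : ℝ) / Q) ^ 3 * (B : ℝ) * (m : ℝ) ^ (κ - 1)) ^ (1 / 2 : ℝ) := by
            apply mul_le_mul _ _ hlow0 (by positivity)
            · rw [hc']
              exact (min_le_right _ _).trans (min_le_right _ _)
            · exact (min_le_right _ _).trans (min_le_right _ _)
        _ = (c / 2 * (((N : ℝ) / Q) ^ 3 * (B : ℝ) * (m : ℝ) ^ (κ - 1))) ^ (1 / 2 : ℝ) := by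
            rw [← Real.mul_rpow (by positivity) (by positivity)]
        _ ≤ (c / 2 * (((N : ℝ) / Q) ^ 3 * (P.card : ℝ) * (m : ℝ) ^ (κ - 1))) ^ (1 / 2 : ℝ) := by
            gcongr
        _ ≤ E.card := h3

/-- 2. exponents -/
theorem part2 {κ : ℝ} (h1 : 1 < κ) {lam c C : ℝ} (hc : 0 < c) (hC : 2 ≤ C)
    (h : ∀ N Q : ℕ, 1 ≤ Q → C * Q ≤ N → N ≤ Q * Q → ∀ E ⊆ Finset.Icc 1 N, ∀ B m : ℕ,
      B ≤ ((Finset.Ico Q (2 * Q)).filter fun p => p.Prime ∧ m ≤ (denseSet lam N E p).card).card →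
      c * low κ (N / Q) B m ≤ (E.card : ℝ)) {α : ℝ} (hα : 1 / 2 < α) (hα1 : α < 1) {ε : ℝ}
    (hε : 0 < ε) : ∃ N₀ : ℕ, ∀ N : ℕ, N₀ ≤ N → ∀ E ⊆ Finset.Icc 1 N, ∀ β μ : ℝ,
      (N : ℝ) ^ β ≤ (((primes α N).filter fun p =>
        (N : ℝ) ^ μ ≤ ((denseSet lam N E p).card : ℝ)).card : ℝ) →
      (N : ℝ) ^ (expo κ α β μ - ε) ≤ (E.card : ℝ) := by
  classical
  have hκ : 0 < κ - 1 := by linarith
  have hκ0 : 0 < κ := by linarith
  obtain ⟨N₀, hN₀⟩ := eventually_atTop.1 ((ev_ge (2 * C) (1 - α) (by linarith)).and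
    ((ev_ge (8 / c) ε hε).and (eventually_ge_atTop 1)))
  refine ⟨N₀, fun N hN E hE β μ hcount => ?_⟩
  obtain ⟨h3, h4, hN1⟩ := hN₀ N hN
  have hN0 : (0 : ℝ) < N := by exact_mod_cast hN1
  have hN1r : (1 : ℝ) ≤ N := by exact_mod_cast hN1
  obtain ⟨L, hL⟩ : ∃ L : ℝ, L = (N : ℝ) ^ α := ⟨_, rfl⟩
  have hL1 : 1 ≤ L := by rw [hL]; exact Real.one_le_rpow hN1r (by linarith)
  obtain ⟨Q, hQ⟩ : ∃ Q : ℕ, Q = ⌈L⌉₊ := ⟨_, rfl⟩
  have hQ1 : 1 ≤ Q := by rw [hQ]; exact Nat.one_le_ceil_iff.2 (by linarith)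
  have hQ0 : (0 : ℝ) < Q := by exact_mod_cast hQ1
  have hLQ : L ≤ Q := by rw [hQ]; exact Nat.le_ceil L
  have hQL : (Q : ℝ) ≤ 2 * L := by
    have := Nat.ceil_lt_add_one (show 0 ≤ L by linarith)
    rw [← hQ] at this
    linarith
  have hQN : C * Q ≤ N := by
    calc C * Q ≤ C * (2 * L) := by gcongr
      _ = 2 * C * (N : ℝ) ^ α := by rw [hL]; ring
      _ ≤ (N : ℝ) ^ (1 - α) * (N : ℝ) ^ α := by gcongr
      _ = N := by rw [← Real.rpow_add hN0]; simp
  have hNQ : N ≤ Q * Q := by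
    have h5 : (N : ℝ) ≤ (Q : ℝ) * Q := by
      calc (N : ℝ) = (N : ℝ) ^ (1 : ℝ) := (Real.rpow_one _).symm
        _ ≤ (N : ℝ) ^ (α + α) := Real.rpow_le_rpow_of_exponent_le hN1r (by linarith)
        _ = L * L := by rw [Real.rpow_add hN0, hL]
        _ ≤ Q * Q := by gcongr
    exact_mod_cast h5
  obtain ⟨m, hm⟩ : ∃ m : ℕ, m = ⌈(N : ℝ) ^ μ⌉₊ := ⟨_, rfl⟩
  have hmμ : (N : ℝ) ^ μ ≤ m := by rw [hm]; exact Nat.le_ceil _
  obtain ⟨F, hF⟩ : ∃ F : Finset ℕ, F = (primes α N).filter fun p =>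
    (N : ℝ) ^ μ ≤ ((denseSet lam N E p).card : ℝ) := ⟨_, rfl⟩
  rw [← hF] at hcount
  have hsub : F ⊆ (Finset.Ico Q (2 * Q)).filter fun p =>
      p.Prime ∧ m ≤ (denseSet lam N E p).card := by
    intro q hq
    rw [hF, Finset.mem_filter, mem_primes, ← hL] at hq
    rw [Finset.mem_filter, Finset.mem_Ico, hQ]
    refine ⟨⟨Nat.ceil_le.2 hq.1.2.1, ?_⟩, hq.1.1, ?_⟩
    · have h5 : (q : ℝ) < 2 * (⌈L⌉₊ : ℕ) := by
        have := Nat.le_ceil L
        linarith [hq.1.2.2]
      exact_mod_cast h5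
    · rw [hm]
      exact Nat.ceil_le.2 hq.2
  have hmain := h N Q hQ1 hQN hNQ E hE F.card m (Finset.card_le_card hsub)
  -- the size of `low`
  obtain ⟨X, hX⟩ : ∃ X : ℝ, X = (N : ℝ) / Q := ⟨_, rfl⟩
  rw [← hX] at hmain
  have hX0 : 0 < X := by rw [hX]; positivity
  have hXN : (N : ℝ) ^ (1 - α) / 2 ≤ X := by
    rw [hX, Real.rpow_sub hN0, Real.rpow_one, div_div]
    apply div_le_div_of_nonneg_left hN0.le hQ0
    rw [← hL]
    linarith
  have hXn0 : 0 < (N : ℝ) ^ (1 - α) := by positivity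
  have hX3 : (N : ℝ) ^ (3 - 3 * α) / 8 ≤ X ^ 3 := by
    have e : (N : ℝ) ^ (3 - 3 * α) = ((N : ℝ) ^ (1 - α)) ^ 3 := by
      rw [← Real.rpow_natCast, ← Real.rpow_mul hN0.le]
      congr 1
      push_cast
      ring
    rw [e]
    calc ((N : ℝ) ^ (1 - α)) ^ 3 / 8 = ((N : ℝ) ^ (1 - α) / 2) ^ 3 := by ring
      _ ≤ X ^ 3 := by gcongr
  have hroot : ∀ s : ℝ, 0 ≤ s → s ≤ 1 → (1 / 8 : ℝ) ≤ (1 / 8 : ℝ) ^ s := by
    intro s hs0 hs1
    calc (1 / 8 : ℝ) = (1 / 8 : ℝ) ^ (1 : ℝ) := (Real.rpow_one _).symm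
      _ ≤ (1 / 8 : ℝ) ^ s := Real.rpow_le_rpow_of_exponent_ge (by norm_num) (by norm_num) hs1
  have hlow : 1 / 8 * (N : ℝ) ^ (expo κ α β μ) ≤ low κ X F.card m := by
    unfold low
    refine le_min ?_ (le_min ?_ ?_)
    · calc 1 / 8 * (N : ℝ) ^ (expo κ α β μ) ≤ 1 / 8 * (N : ℝ) ^ (1 - α + β + μ) :=
            mul_le_mul_of_nonneg_left
              (Real.rpow_le_rpow_of_exponent_le hN1r (min_le_left _ _)) (by norm_num)
        _ ≤ (N : ℝ) ^ (1 - α) / 2 * (N : ℝ) ^ β * (N : ℝ) ^ μ := by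
            rw [Real.rpow_add hN0, Real.rpow_add hN0]
            have : 0 < (N : ℝ) ^ (1 - α) * (N : ℝ) ^ β * (N : ℝ) ^ μ := by positivity
            linarith
        _ ≤ X * F.card * m := by gcongr
    · calc 1 / 8 * (N : ℝ) ^ (expo κ α β μ) ≤
            (1 / 8 : ℝ) ^ (1 / (1 + κ)) *
              (N : ℝ) ^ ((3 - 3 * α + κ * β + (κ - 1) * μ) / (1 + κ)) := by
            apply mul_le_mul _ _ (by positivity) (by positivity)
            · apply hroot
              · positivity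
              · rw [div_le_one (by positivity)]
                linarith
            · apply Real.rpow_le_rpow_of_exponent_le hN1r
              exact (min_le_right _ _).trans (min_le_left _ _)
        _ = ((N : ℝ) ^ (3 - 3 * α) / 8 * ((N : ℝ) ^ β) ^ κ * ((N : ℝ) ^ μ) ^ (κ - 1)) ^
              (1 / (1 + κ)) := by
            have e1 : (N : ℝ) ^ (3 - 3 * α) / 8 * ((N : ℝ) ^ β) ^ κ * ((N : ℝ) ^ μ) ^ (κ - 1) =
                1 / 8 * (N : ℝ) ^ (3 - 3 * α + κ * β + (κ - 1) * μ) := by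
              rw [← Real.rpow_mul hN0.le, ← Real.rpow_mul hN0.le, Real.rpow_add hN0,
                Real.rpow_add hN0, mul_comm β κ, mul_comm μ (κ - 1)]
              ring
            rw [e1, Real.mul_rpow (by norm_num) (by positivity), ← Real.rpow_mul hN0.le,
              mul_one_div]
        _ ≤ _ := by gcongr
    · calc 1 / 8 * (N : ℝ) ^ (expo κ α β μ) ≤
            (1 / 8 : ℝ) ^ (1 / 2 : ℝ) *
              (N : ℝ) ^ ((3 - 3 * α + β + (κ - 1) * μ) / 2) := by
            apply mul_le_mul _ _ (by positivity) (by positivity)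
            · apply hroot
              · norm_num
              · norm_num
            · apply Real.rpow_le_rpow_of_exponent_le hN1r
              exact (min_le_right _ _).trans (min_le_right _ _)
        _ = ((N : ℝ) ^ (3 - 3 * α) / 8 * (N : ℝ) ^ β * ((N : ℝ) ^ μ) ^ (κ - 1)) ^
              (1 / 2 : ℝ) := by
            have e1 : (N : ℝ) ^ (3 - 3 * α) / 8 * (N : ℝ) ^ β * ((N : ℝ) ^ μ) ^ (κ - 1) =
                1 / 8 * (N : ℝ) ^ (3 - 3 * α + β + (κ - 1) * μ) := by
              rw [← Real.rpow_mul hN0.le, Real.rpow_add hN0,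
                Real.rpow_add hN0, mul_comm μ (κ - 1)]
              ring
            rw [e1, Real.mul_rpow (by norm_num) (by positivity), ← Real.rpow_mul hN0.le,
              mul_one_div]
        _ ≤ _ := by gcongr
  rw [Real.rpow_sub hN0, div_le_iff₀ (by positivity)]
  have h5 : 1 ≤ c / 8 * (N : ℝ) ^ ε := by
    have h6 : 8 / c * (c / 8) = 1 := by field_simp
    calc (1 : ℝ) = c / 8 * (8 / c) := by rw [mul_comm]; exact h6.symm
      _ ≤ c / 8 * (N : ℝ) ^ ε := by gcongr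
  calc (N : ℝ) ^ (expo κ α β μ) = 1 * (N : ℝ) ^ (expo κ α β μ) := (one_mul _).symm
    _ ≤ c / 8 * (N : ℝ) ^ ε * (N : ℝ) ^ (expo κ α β μ) := by gcongr
    _ = c * (1 / 8 * (N : ℝ) ^ (expo κ α β μ)) * (N : ℝ) ^ ε := by ring
    _ ≤ c * low κ X F.card m * (N : ℝ) ^ ε := by gcongr
    _ ≤ E.card * (N : ℝ) ^ ε := by gcongr

/-- 3. -/
theorem part3 {κ : ℝ} (h1 : 1 < κ) {lam : ℝ} {α : ℝ} (hα : 1 / 2 < α) (hα1 : α < 1)
    (h : ∀ ε : ℝ, 0 < ε → ∃ N₀ : ℕ, ∀ N : ℕ, N₀ ≤ N → ∀ E ⊆ Finset.Icc 1 N, ∀ β μ : ℝ,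
      (N : ℝ) ^ β ≤ (((primes α N).filter fun p =>
        (N : ℝ) ^ μ ≤ ((denseSet lam N E p).card : ℝ)).card : ℝ) →
      (N : ℝ) ^ (expo κ α β μ - ε) ≤ (E.card : ℝ)) {θ ε : ℝ} (hθ : 0 < θ)
    (hε : 0 < ε) : ∃ N₀ : ℕ, ∀ N : ℕ, N₀ ≤ N → ∀ (a : (p : ℕ) → ZMod p) (E : Finset ℕ),
      E ⊆ Finset.Icc 1 N →
      θ * (primes α N).card ≤ (((primes α N).filter fun p =>
        lam * N / p ≤ (hits a E p : ℝ)).card : ℝ) →
      (N : ℝ) ^ (min (3 / 2 - α) ((3 - (3 - κ) * α) / (1 + κ)) - ε) ≤ (E.card : ℝ) := by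
  classical
  have hκ0 : 0 < κ := by linarith
  have hα0 : 0 < α := by linarith
  obtain ⟨N₁, hN₁⟩ := h (ε / 2) (by positivity)
  have hev : ∀ᶠ N : ℕ in atTop, 4 / θ * Real.log N ≤ (N : ℝ) ^ (ε / 2) := by
    have ho := (isLittleO_log_rpow_atTop (show 0 < ε / 2 by positivity)).bound
      (show (0 : ℝ) < θ / 4 by positivity)
    filter_upwards [tendsto_natCast_atTop_atTop.eventually ho] with N hN
    rw [Real.norm_eq_abs, Real.norm_of_nonneg (by positivity)] at hN
    have h5 := (le_abs_self (Real.log (N : ℝ))).trans hN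
    rw [div_mul_eq_mul_div, div_le_iff₀ hθ]
    linarith
  obtain ⟨N₂, hN₂⟩ := eventually_atTop.1 (((ev_primes hα0 hα1).and hev).and
    (eventually_ge_atTop 1))
  refine ⟨max N₁ N₂, fun N hN a E hE hcount => ?_⟩
  obtain ⟨⟨h3, h4⟩, hN1⟩ := hN₂ N ((le_max_right _ _).trans hN)
  have hN0 : (0 : ℝ) < N := by exact_mod_cast hN1
  have hN1r : (1 : ℝ) ≤ N := by exact_mod_cast hN1
  rw [← primes_eq] at h3
  have h5 := hN₁ N ((le_max_left _ _).trans hN) E hE (α - ε / 2) 0
  refine le_trans ?_ (h5 ?_)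
  · apply Real.rpow_le_rpow_of_exponent_le hN1r
    have e1 : min (3 / 2 - α) ((3 - (3 - κ) * α) / (1 + κ)) - ε / 2 ≤
        expo κ α (α - ε / 2) 0 := by
      unfold expo
      refine le_min ?_ (le_min ?_ ?_)
      · have := min_le_left (3 / 2 - α) ((3 - (3 - κ) * α) / (1 + κ))
        linarith
      · have h6 := min_le_right (3 / 2 - α) ((3 - (3 - κ) * α) / (1 + κ))
        have h7 : (3 - 3 * α + κ * (α - ε / 2) + (κ - 1) * 0) / (1 + κ) =
            (3 - (3 - κ) * α) / (1 + κ) - κ / (1 + κ) * (ε / 2) := by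
          field_simp
          ring
        rw [h7]
        have h8 : κ / (1 + κ) * (ε / 2) ≤ 1 * (ε / 2) := by
          gcongr
          rw [div_le_one (by positivity)]
          linarith
        linarith
      · have := min_le_left (3 / 2 - α) ((3 - (3 - κ) * α) / (1 + κ))
        linarith
    linarith
  -- the number of the moduli
  have h6 : (N : ℝ) ^ (α - ε / 2) ≤ θ * (primes α N).card := by
    rw [Real.rpow_sub hN0, div_le_iff₀ (by positivity)]
    calc (N : ℝ) ^ α ≤ 4 * (((primes α N).card : ℝ) * Real.log N) := h3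
      _ = θ * (primes α N).card * (4 / θ * Real.log N) := by field_simp
      _ ≤ θ * (primes α N).card * (N : ℝ) ^ (ε / 2) := by gcongr
  refine h6.trans (hcount.trans (Nat.cast_le.2 (Finset.card_le_card ?_)))
  intro p hp
  rw [Finset.mem_filter] at hp ⊢
  have hp1 := mem_primes.1 hp.1
  refine ⟨hp.1, ?_⟩
  rw [Real.rpow_zero, Nat.one_le_cast, Nat.one_le_iff_ne_zero, ← Nat.pos_iff_ne_zero,
    Finset.card_pos]
  have : NeZero p := ⟨hp1.1.ne_zero⟩
  refine ⟨(a p).val, ?_⟩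
  unfold denseSet
  rw [Finset.mem_filter, Finset.mem_range]
  refine ⟨ZMod.val_lt _, ?_⟩
  have e2 : hits a E p = (E.filter fun n => n % p = (a p).val).card := by
    unfold hits
    congr 1
    ext n
    rw [Finset.mem_filter, Finset.mem_filter, ← ZMod.val_natCast]
    constructor
    · rintro ⟨h7, h8⟩
      exact ⟨h7, by rw [h8]⟩
    · rintro ⟨h7, h8⟩
      exact ⟨h7, ZMod.val_injective _ h8⟩
  rw [← e2]
  exact hp.2

/-- the number of the elements of `[1, N]` in a class -/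
theorem hits_le {N p : ℕ} (a : (p : ℕ) → ZMod p) :
    (hits a (Finset.Icc 1 N) p : ℝ) ≤ N / p + 1 := by
  classical
  have h1 : hits a (Finset.Icc 1 N) p ≤ N / p + 1 := by
    unfold hits
    have h2 : ((Finset.Icc 1 N).filter fun n : ℕ => (n : ZMod p) = a p).card ≤
        (Finset.range (N / p + 1)).card := by
      apply Finset.card_le_card_of_injOn (fun n => n / p)
      · intro n hn
        rw [Finset.mem_coe, Finset.mem_filter, Finset.mem_Icc] at hn
        rw [Finset.mem_coe, Finset.mem_range, Nat.lt_succ_iff]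
        exact Nat.div_le_div_right hn.1.2
      · intro n hn m hm hnm
        rw [Finset.mem_coe, Finset.mem_filter] at hn hm
        have h3 : n % p = m % p := by
          rw [← ZMod.val_natCast, ← ZMod.val_natCast, hn.2, hm.2]
        simp only at hnm
        rw [← Nat.div_add_mod n p, ← Nat.div_add_mod m p, h3, hnm]
    rwa [Finset.card_range] at h2
  have h2 : ((N / p : ℕ) : ℝ) ≤ N / p := Nat.cast_div_le
  have h3 : (hits a (Finset.Icc 1 N) p : ℝ) ≤ ((N / p : ℕ) : ℝ) + 1 := by exact_mod_cast h1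
  linarith

/-- 4. from 3. -/
theorem part4 {lam α e : ℝ} (hα : 0 < α) (hα1 : α < 1) {θ ε : ℝ} (hε : 0 < ε)
    (h : ∃ N₀ : ℕ, ∀ N : ℕ, N₀ ≤ N → ∀ (a : (p : ℕ) → ZMod p) (E : Finset ℕ),
      E ⊆ Finset.Icc 1 N →
      θ * (primes α N).card ≤ (((primes α N).filter fun p =>
        lam * N / p ≤ (hits a E p : ℝ)).card : ℝ) →
      (N : ℝ) ^ (e - ε / 2) ≤ (E.card : ℝ)) :
    ∃ N₀ : ℕ, ∀ N : ℕ, N₀ ≤ N → ∀ a : (p : ℕ) → ZMod p,
      (((primes α N).filter fun p => lam * N / p ≤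
        (hits a ((Finset.Icc 1 N).filter fun n =>
          (N : ℝ) ^ (1 - e + ε) ≤ (mult α N a n : ℝ)) p : ℝ)).card : ℝ) ≤
        θ * (primes α N).card := by
  classical
  obtain ⟨N₁, hN₁⟩ := h
  obtain ⟨N₂, hN₂⟩ := eventually_atTop.1 ((ev_ge 5 (ε / 2) (by positivity)).and
    ((ev_ge 2 (1 - α) (by linarith)).and (eventually_ge_atTop 1)))
  refine ⟨max N₁ N₂, fun N hN a => ?_⟩
  obtain ⟨h5, h6, hN1⟩ := hN₂ N ((le_max_right _ _).trans hN)
  have hN0 : (0 : ℝ) < N := by exact_mod_cast hN1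
  by_contra hcon
  push Not at hcon
  obtain ⟨T, hT⟩ : ∃ T : ℝ, T = (N : ℝ) ^ (1 - e + ε) := ⟨_, rfl⟩
  have hT0 : 0 < T := by rw [hT]; positivity
  obtain ⟨E, hE⟩ : ∃ E : Finset ℕ, E = (Finset.Icc 1 N).filter fun n => T ≤ (mult α N a n : ℝ) :=
    ⟨_, rfl⟩
  rw [← hT, ← hE] at hcon
  have h7 := hN₁ N ((le_max_left _ _).trans hN) a E (by rw [hE]; exact Finset.filter_subset _ _)
    hcon.le
  -- the number of all pairs
  have h8 : (E.card : ℝ) * T ≤ 4 * N := by
    calc (E.card : ℝ) * T = ∑ _n ∈ E, T := by rw [Finset.sum_const, nsmul_eq_mul]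
      _ ≤ ∑ n ∈ E, (mult α N a n : ℝ) := by
          refine Finset.sum_le_sum fun n hn => ?_
          rw [hE, Finset.mem_filter] at hn
          exact hn.2
      _ ≤ ∑ n ∈ Finset.Icc 1 N, (mult α N a n : ℝ) := by
          refine Finset.sum_le_sum_of_subset_of_nonneg ?_ fun _ _ _ => Nat.cast_nonneg _
          rw [hE]
          exact Finset.filter_subset _ _
      _ = ∑ p ∈ primes α N, (hits a (Finset.Icc 1 N) p : ℝ) := by
          have := Finset.sum_card_bipartiteAbove_eq_sum_card_bipartiteBelow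
            (fun (n p : ℕ) => (n : ZMod p) = a p) (s := Finset.Icc 1 N) (t := primes α N)
          unfold Finset.bipartiteAbove Finset.bipartiteBelow at this
          unfold mult hits
          exact_mod_cast this
      _ ≤ ∑ _p ∈ primes α N, (2 * (N : ℝ) ^ (1 - α)) := by
          refine Finset.sum_le_sum fun p hp => ?_
          rw [mem_primes] at hp
          have hp0 : (0 : ℝ) < (N : ℝ) ^ α := by positivity
          have h9 : (N : ℝ) / p ≤ (N : ℝ) ^ (1 - α) := by
            rw [Real.rpow_sub hN0, Real.rpow_one]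
            gcongr
            exact hp.2.1
          have h10 := hits_le (N := N) (p := p) a
          linarith
      _ = (primes α N).card * (2 * (N : ℝ) ^ (1 - α)) := by rw [Finset.sum_const, nsmul_eq_mul]
      _ ≤ (2 * (N : ℝ) ^ α) * (2 * (N : ℝ) ^ (1 - α)) := by
          gcongr
          have h9 : primes α N ⊆ (Finset.range ⌈2 * (N : ℝ) ^ α⌉₊).erase 0 := by
            intro p hp
            rw [mem_primes] at hp
            rw [Finset.mem_erase, Finset.mem_range, Nat.lt_ceil]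
            exact ⟨hp.1.ne_zero, hp.2.2⟩
          have h10 := Finset.card_le_card h9
          have h11 : (0 : ℝ) < (N : ℝ) ^ α := by positivity
          rw [Finset.card_erase_of_mem (by
            rw [Finset.mem_range]
            exact Nat.ceil_pos.2 (by positivity)), Finset.card_range] at h10
          have h12 := Nat.ceil_lt_add_one (show 0 ≤ 2 * (N : ℝ) ^ α by positivity)
          have h13 : 1 ≤ ⌈2 * (N : ℝ) ^ α⌉₊ := Nat.one_le_ceil_iff.2 (by positivity)
          have h14 : ((primes α N).card : ℝ) ≤ ((⌈2 * (N : ℝ) ^ α⌉₊ - 1 : ℕ) : ℝ) := by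
            exact_mod_cast h10
          rw [Nat.cast_sub h13] at h14
          push_cast at h14
          linarith
      _ = 4 * N := by
          have : (N : ℝ) ^ α * (N : ℝ) ^ (1 - α) = N := by
            rw [← Real.rpow_add hN0]; simp
          calc (2 * (N : ℝ) ^ α) * (2 * (N : ℝ) ^ (1 - α)) =
                4 * ((N : ℝ) ^ α * (N : ℝ) ^ (1 - α)) := by ring
            _ = 4 * N := by rw [this]
  have h9 : 5 * (N : ℝ) ≤ E.card * T := by
    calc 5 * (N : ℝ) ≤ (N : ℝ) ^ (ε / 2) * N := by gcongr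
      _ = (N : ℝ) ^ (e - ε / 2) * T := by
          rw [hT, ← Real.rpow_add hN0]
          nth_rewrite 2 [← Real.rpow_one (N : ℝ)]
          rw [← Real.rpow_add hN0]
          congr 1
          ring
      _ ≤ E.card * T := by gcongr
  linarith

theorem result :
    SumsDifferences 1.669587 ∧
    ∀ κ : ℝ, 1 < κ → κ ≤ 2 → SumsDifferences κ → ∀ lam : ℝ, 0 < lam →
      -- 1. the explicit inequality
      (∃ c C : ℝ, 0 < c ∧ 2 ≤ C ∧ ∀ N Q : ℕ, 1 ≤ Q → C * Q ≤ N → N ≤ Q * Q →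
        ∀ E ⊆ Finset.Icc 1 N, ∀ B m : ℕ,
          B ≤ ((Finset.Ico Q (2 * Q)).filter fun p =>
            p.Prime ∧ m ≤ (denseSet lam N E p).card).card →
          c * low κ (N / Q) B m ≤ (E.card : ℝ)) ∧
      ∀ α : ℝ, 1 / 2 < α → α < 1 → ∀ ε : ℝ, 0 < ε →
        -- 2. many primes with many dense classes
        (∃ N₀ : ℕ, ∀ N : ℕ, N₀ ≤ N → ∀ E ⊆ Finset.Icc 1 N, ∀ β μ : ℝ,
          (N : ℝ) ^ β ≤ (((primes α N).filter fun p =>
            (N : ℝ) ^ μ ≤ ((denseSet lam N E p).card : ℝ)).card : ℝ) →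
          (N : ℝ) ^ (expo κ α β μ - ε) ≤ (E.card : ℝ)) ∧
        ∀ θ : ℝ, 0 < θ →
          -- 3. a proportion of the classes of a proportion of the primes
          (∃ N₀ : ℕ, ∀ N : ℕ, N₀ ≤ N → ∀ (a : (p : ℕ) → ZMod p) (E : Finset ℕ),
            E ⊆ Finset.Icc 1 N →
            θ * (primes α N).card ≤ (((primes α N).filter fun p =>
              lam * N / p ≤ (hits a E p : ℝ)).card : ℝ) →
            (N : ℝ) ^ (min (3 / 2 - α) ((3 - (3 - κ) * α) / (1 + κ)) - ε) ≤ (E.card : ℝ)) ∧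
          -- 4. the multiplicities
          ∃ N₀ : ℕ, ∀ N : ℕ, N₀ ≤ N → ∀ a : (p : ℕ) → ZMod p,
            (((primes α N).filter fun p => lam * N / p ≤
              (hits a ((Finset.Icc 1 N).filter fun n =>
                (N : ℝ) ^ (1 - min (3 / 2 - α) ((3 - (3 - κ) * α) / (1 + κ)) + ε) ≤
                  (mult α N a n : ℝ)) p : ℝ)).card : ℝ) ≤
              θ * (primes α N).card := by
  refine ⟨Pool.Agent.K3h46.MU.sdc_bound, fun κ h1 h2 hSD lam hlam => ?_⟩
  obtain ⟨c, C, hc, hC, hmain⟩ := part1 h1 h2 hSD lam hlam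
  refine ⟨⟨c, C, hc, hC, hmain⟩, fun α hα hα1 ε hε => ⟨part2 h1 hc hC hmain hα hα1 hε,
    fun θ hθ => ?_⟩⟩
  have h3 : ∀ ε : ℝ, 0 < ε → ∃ N₀ : ℕ, ∀ N : ℕ, N₀ ≤ N → ∀ (a : (p : ℕ) → ZMod p) (E : Finset ℕ),
      E ⊆ Finset.Icc 1 N →
      θ * (primes α N).card ≤ (((primes α N).filter fun p =>
        lam * N / p ≤ (hits a E p : ℝ)).card : ℝ) →
      (N : ℝ) ^ (min (3 / 2 - α) ((3 - (3 - κ) * α) / (1 + κ)) - ε) ≤ (E.card : ℝ) :=
    fun ε hε => part3 h1 hα hα1 (fun ε hε => part2 h1 hc hC hmain hα hα1 hε) hθ hε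
  exact ⟨h3 ε hε, part4 (by linarith) hα1 hε (h3 (ε / 2) (by positivity))⟩

end Pool.Agent.Results.MP_bb5cc8_nt.FlagPortions
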