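import Pool.Agent.K3h46.TP.Asym

/-!
# Almost all choices of one class for each prime near `N^α`: every proportion of the classes

`1 / 2 < α < 1`. A choice `a` consists of one residue class modulo each of the `K` primes `N^α ≤ p < 2 N^α`;
there are `M = ∏ p` choices. Let `0 < λ`, `0 < θ ≤ 1`. Call a set `E` of integers of `[1, N]` rich for `a` if it
contains at least `λ N / p` elements of the class `a p` for at least `θ K` of the primes `p`. We prove, for every
`η > 0` and all large `N`: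

(1) for `1 ≤ X ≤ δ N / log N`, `δ = δ(α, λ, θ, η) > 0`, at most `M^(1 - θ (1 - α) / α + η) (X / N)^(θ K)` choices
have a rich set with at most `X` elements;

(2) for `0 < ε ≤ 1` at most `M^(1 - θ (1 - α + ε) / α + η)` choices have a rich set with at most `N^(1 - ε)`
elements;

(3) there is a constant `T` such that for all but `M^(1 - θ (1 - α) / α + η)` choices the following holds: for all
but `θ K` primes `p`, all but at most `λ N / p` of the integers `n ≤ N` in the class `a p` are in fewer than `T` of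
the chosen classes.

For `θ = 1`, and the union of all classes in place of `E`, (1) and (2) are the starting result AlmostAllChoices.

Proof. Let `E` be rich for `a` with at most `X` elements. A greedy choice gives a set `D` of at most
`4 X N^(α - 1) / λ` primes such that for each of the `θ K` primes `p` not in `D` at least `λ N / (2 p)` elements of the
class `a p` are in the union `C` of the classes `a q`, `q ∈ D`, which has at most `8 X / λ` elements. By the large
sieve there are at most `O(|C| N^(3 α - 2) / λ^2)` such classes modulo all the primes together. The set `E` does not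
occur in this statement: `C` is determined by `D` and the values of `a` on `D`.
-/

set_option autoImplicit false
set_option maxHeartbeats 1000000

open Filter

namespace Pool.Agent.Results.MP_bb5cc8_nt.TypicalPortions

open Pool.Agent.H170R2.PC Pool.Agent.R416.CV Pool.Agent.K3h46.TP

/-- the number of the chosen classes which contain `n` -/
noncomputable def mult {α : ℝ} {N : ℕ} (a : Choice α N) (n : ℕ) : ℕ :=
  Nat.card {p : {p : ℕ // InRange α N p} // (n : ZMod p.1) = a p}

open Classical in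
/-- the integers of `[1, N]` in at least `T` of the chosen classes -/
noncomputable def popular {α : ℝ} {N : ℕ} (T : ℝ) (a : Choice α N) : Finset ℕ :=
  (Finset.Icc 1 N).filter fun n => T ≤ (mult a n : ℝ)

theorem log_tend : Tendsto (fun N : ℕ => Real.log (N : ℝ)) atTop atTop :=
  Real.tendsto_log_atTop.comp tendsto_natCast_atTop_atTop

theorem log_le (c : ℝ) (hc : 0 < c) : ∀ᶠ N : ℕ in atTop, Real.log (N : ℝ) ≤ c * N := by
  have ho := (Real.isLittleO_log_id_atTop.bound hc)
  have ho2 := tendsto_natCast_atTop_atTop.eventually ho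
  filter_upwards [ho2] with N hN
  refine (le_abs_self _).trans ?_
  rw [Real.norm_eq_abs, id, Real.norm_of_nonneg (Nat.cast_nonneg _)] at hN
  exact hN

/-- (1) at the end of the range of `X` -/
theorem at_end {α η lam th : ℝ} (hth : 0 < th) {δ : ℝ} (hδ : 0 < δ)
    (h : ∃ N₀ : ℕ, ∀ N : ℕ, N₀ ≤ N → ∀ X : ℝ, 1 ≤ X → X ≤ δ * N / Real.log N →
      (numBad α lam th N X : ℝ) ≤ (numChoices α N : ℝ) ^ (1 - th * (1 - α) / α + η) *
          (X / N) ^ (th * numPrimes α N)) :
    ∃ N₀ : ℕ, ∀ N : ℕ, N₀ ≤ N → (numBad α lam th N (δ * N / Real.log N) : ℝ) ≤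
      (numChoices α N : ℝ) ^ (1 - th * (1 - α) / α + η) := by
  obtain ⟨N₀, hmain⟩ := h
  have hev := ((log_tend.eventually (eventually_ge_atTop (max 1 δ))).and (log_le δ hδ)).and
    (eventually_ge_atTop (max 1 N₀))
  obtain ⟨N₁, hN₁⟩ := eventually_atTop.1 hev
  refine ⟨N₁, fun N hN => ?_⟩
  obtain ⟨⟨h3, h4⟩, h5⟩ := hN₁ N hN
  have hN1 : 1 ≤ N := (le_max_left _ _).trans h5
  have hNN : N₀ ≤ N := (le_max_right _ _).trans h5
  have hN0 : (0 : ℝ) < N := by exact_mod_cast hN1
  have hl0 : 0 < Real.log (N : ℝ) := lt_of_lt_of_le one_pos ((le_max_left _ _).trans h3)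
  have hld : δ ≤ Real.log (N : ℝ) := (le_max_right _ _).trans h3
  have h6 := hmain N hNN (δ * N / Real.log N)
    (by rw [le_div_iff₀ hl0, one_mul]; exact h4) le_rfl
  refine h6.trans ?_
  have h7 : (δ * N / Real.log N / N) ^ (th * (numPrimes α N : ℝ)) ≤ 1 := by
    apply Real.rpow_le_one (by positivity)
    · rw [div_div, div_le_one (by positivity)]
      rw [mul_comm (Real.log (N : ℝ))]
      nlinarith
    · positivity
  calc _ ≤ (numChoices α N : ℝ) ^ (1 - th * (1 - α) / α + η) * 1 := by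
        apply mul_le_mul_of_nonneg_left h7
        positivity
    _ = _ := mul_one _

/-- (2) -/
theorem part2 {α η lam th : ℝ} (h1 : 1 / 2 < α) (h2 : α < 1) (hη : 0 < η) (hlam : 0 < lam)
    (hth : 0 < th) (hth1 : th ≤ 1) {ε : ℝ} (hε : 0 < ε) (hε1 : ε ≤ 1) :
    ∃ N₀ : ℕ, ∀ N : ℕ, N₀ ≤ N → (numBad α lam th N ((N : ℝ) ^ (1 - ε)) : ℝ) ≤
      (numChoices α N : ℝ) ^ (1 - th * (1 - α + ε) / α + η) := by
  have hα : 0 < α := by linarith
  obtain ⟨δ, hδ, N₀, hmain⟩ := main_L h1 h2 (show 0 < η / 2 by positivity) hlam hth hth1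
  have hpow : ∀ᶠ N : ℕ in atTop, Real.log (N : ℝ) ≤ δ * (N : ℝ) ^ ε := by
    have ho := (isLittleO_log_rpow_atTop hε).bound hδ
    have ho2 := tendsto_natCast_atTop_atTop.eventually ho
    filter_upwards [ho2] with N hN
    refine (le_abs_self _).trans ?_
    rw [Real.norm_eq_abs, Real.norm_of_nonneg (by positivity)] at hN
    exact hN
  have hev := ((log_tend.eventually
    (eventually_ge_atTop (max 1 (ε * Real.log 2 / α / (α * η / 2))))).and hpow).and
    (eventually_ge_atTop (max 1 N₀))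
  obtain ⟨N₁, hN₁⟩ := eventually_atTop.1 hev
  refine ⟨N₁, fun N hN => ?_⟩
  obtain ⟨⟨h3, h4⟩, h5⟩ := hN₁ N hN
  have hN1 : 1 ≤ N := (le_max_left _ _).trans h5
  have hNN : N₀ ≤ N := (le_max_right _ _).trans h5
  have hN0 : (0 : ℝ) < N := by exact_mod_cast hN1
  obtain ⟨ℓ, hℓ⟩ : ∃ ℓ, ℓ = Real.log (N : ℝ) := ⟨_, rfl⟩
  rw [← hℓ] at h3 h4
  have hl0 : 0 < ℓ := lt_of_lt_of_le one_pos ((le_max_left _ _).trans h3)
  have hle : ε * Real.log 2 / α ≤ α * η / 2 * ℓ := by
    have := (le_max_right _ _).trans h3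
    rw [div_le_iff₀ (by positivity)] at this
    linarith
  have hNe : (N : ℝ) = Real.exp ℓ := by rw [hℓ, Real.exp_log hN0]
  have hNe2 : ∀ s : ℝ, (N : ℝ) ^ s = Real.exp (s * ℓ) := by
    intro s
    rw [Real.rpow_def_of_pos hN0, ← hℓ, mul_comm]
  have h6 := hmain N hNN ((N : ℝ) ^ (1 - ε))
    (by rw [hNe2]; exact Real.one_le_exp (mul_nonneg (by linarith) hl0.le))
    (by
      rw [← hℓ, le_div_iff₀ hl0]
      calc (N : ℝ) ^ (1 - ε) * ℓ ≤ (N : ℝ) ^ (1 - ε) * (δ * (N : ℝ) ^ ε) := by gcongr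
        _ = δ * ((N : ℝ) ^ (1 - ε) * (N : ℝ) ^ ε) := by ring
        _ = δ * N := by rw [← Real.rpow_add hN0]; simp)
  refine h6.trans ?_
  -- bounds for the number of choices
  obtain ⟨K, hK⟩ : ∃ K, K = (PD α N).card := ⟨_, rfl⟩
  have hMlo : Real.exp (K * (α * ℓ)) ≤ (numChoices α N : ℝ) := by
    rw [numChoices_eq, Real.exp_nat_mul]
    push_cast
    rw [hK, ← Finset.prod_const]
    apply Finset.prod_le_prod
    · intro p _; positivity
    · intro p hp
      rw [← hNe2]; exact (mem_PD.1 hp).2.1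
  have hMhi : (numChoices α N : ℝ) ≤ Real.exp (K * (Real.log 2 + α * ℓ)) := by
    rw [numChoices_eq, Real.exp_nat_mul]
    push_cast
    rw [hK, ← Finset.prod_const]
    apply Finset.prod_le_prod
    · intro p _; positivity
    · intro p hp
      rw [Real.exp_add, Real.exp_log two_pos, ← hNe2]; exact (mem_PD.1 hp).2.2.le
  have hM0 : (0 : ℝ) < (numChoices α N : ℝ) := lt_of_lt_of_le (Real.exp_pos _) hMlo
  obtain ⟨μ, hμ⟩ : ∃ μ, μ = Real.log (numChoices α N : ℝ) := ⟨_, rfl⟩
  have hMe : ∀ s : ℝ, (numChoices α N : ℝ) ^ s = Real.exp (s * μ) := by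
    intro s
    rw [Real.rpow_def_of_pos hM0, ← hμ, mul_comm]
  have hμ1 : K * (α * ℓ) ≤ μ := by
    rw [hμ]; exact (Real.le_log_iff_exp_le hM0).2 hMlo
  have hμ2 : μ ≤ K * (Real.log 2 + α * ℓ) := by
    rw [hμ]; exact (Real.log_le_iff_le_exp hM0).2 hMhi
  have hq : (N : ℝ) ^ (1 - ε) / N = Real.exp (-(ε * ℓ)) := by
    rw [hNe2]
    nth_rewrite 1 [hNe]
    rw [← Real.exp_sub]
    congr 1
    ring
  rw [hMe, hMe, hq, numPrimes_eq, ← hK, ← Real.exp_mul, ← Real.exp_add]
  apply Real.exp_le_exp.2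
  have hK0 : (0 : ℝ) ≤ K := Nat.cast_nonneg _
  have e1 : (1 - th * (1 - α + ε) / α + η) * μ = (1 - th * (1 - α) / α + η / 2) * μ +
      (η / 2 * μ - th * (ε / α * μ)) := by
    field_simp
    ring
  rw [e1]
  have e2 : ε / α * μ ≤ ε / α * (K * (Real.log 2 + α * ℓ)) :=
    mul_le_mul_of_nonneg_left hμ2 (by positivity)
  have e3 : ε / α * (K * (Real.log 2 + α * ℓ)) = K * (ε * Real.log 2 / α) + K * (ε * ℓ) := by
    field_simp
  have e4 : η / 2 * (K * (α * ℓ)) ≤ η / 2 * μ := mul_le_mul_of_nonneg_left hμ1 (by positivity)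
  have e5 : K * (ε * Real.log 2 / α) ≤ K * (α * η / 2 * ℓ) := mul_le_mul_of_nonneg_left hle hK0
  have e6 : 0 ≤ K * (ε * Real.log 2 / α) := by
    have := Real.log_nonneg (show (1 : ℝ) ≤ 2 by norm_num)
    positivity
  have e7 : th * (ε / α * μ) ≤ th * (K * (ε * Real.log 2 / α) + K * (ε * ℓ)) := by
    rw [← e3]
    exact mul_le_mul_of_nonneg_left e2 hth.le
  have e8 : th * (K * (ε * Real.log 2 / α)) ≤ K * (ε * Real.log 2 / α) := by nlinarith
  nlinarith

/-- the number of the primes -/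
theorem card_primes {α : ℝ} (hα : 0 < α) {N : ℕ} (hN : 2 ≤ N) :
    ((PD α N).card : ℝ) * (α * Real.log N) ≤ 3 * (N : ℝ) ^ α := by
  have hN0 : (0 : ℝ) < N := by exact_mod_cast (by omega : 0 < N)
  have hN1 : (1 : ℝ) ≤ N := by exact_mod_cast (by omega : 1 ≤ N)
  obtain ⟨L, hL⟩ : ∃ L : ℝ, L = (N : ℝ) ^ α := ⟨_, rfl⟩
  have hL1 : 1 ≤ L := by rw [hL]; exact Real.one_le_rpow hN1 hα.le
  have e : α * Real.log N = Real.log L := by rw [hL, Real.log_rpow hN0]
  rw [← hL, e]
  have hlog : Real.log 4 ≤ 3 / 2 := by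
    have : Real.log 4 = 2 * Real.log 2 := by
      rw [show (4 : ℝ) = 2 ^ 2 by norm_num, Real.log_pow]
      norm_num
    rw [this]
    have := Real.log_two_lt_d9
    linarith
  calc ((PD α N).card : ℝ) * Real.log L = ∑ _p ∈ PD α N, Real.log L := by
        rw [Finset.sum_const, nsmul_eq_mul]
    _ ≤ ∑ p ∈ PD α N, Real.log p := by
        refine Finset.sum_le_sum fun p hp => ?_
        have h := mem_PD.1 hp
        exact Real.log_le_log (by linarith) (by rw [hL]; exact h.2.1)
    _ ≤ Chebyshev.theta (2 * L) := by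
        rw [Chebyshev.theta_eq_sum_Icc]
        refine Finset.sum_le_sum_of_subset_of_nonneg ?_ fun p hp _ => ?_
        · intro p hp
          have h := mem_PD.1 hp
          rw [Finset.mem_filter, Finset.mem_Icc]
          refine ⟨⟨Nat.zero_le _, ?_⟩, h.1⟩
          apply Nat.le_floor
          rw [hL]
          exact h.2.2.le
        · exact Real.log_natCast_nonneg p
    _ ≤ Real.log 4 * (2 * L) := Chebyshev.theta_le_log4_mul_x (by linarith)
    _ ≤ 3 / 2 * (2 * L) := by gcongr
    _ = 3 * L := by ring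

/-- the number of the popular integers -/
theorem card_popular {α : ℝ} (hα : 0 < α) (hα1 : α < 1) {N : ℕ} (hN : 2 ≤ N) {T : ℝ}
    (a : Choice α N) : ((popular T a).card : ℝ) * T * (α * Real.log N) ≤ 6 * N := by
  classical
  have hN0 : (0 : ℝ) < N := by exact_mod_cast (by omega : 0 < N)
  have hN1 : (1 : ℝ) ≤ N := by exact_mod_cast (by omega : 1 ≤ N)
  obtain ⟨L, hL⟩ : ∃ L : ℝ, L = (N : ℝ) ^ α := ⟨_, rfl⟩
  have hL1 : 1 ≤ L := by rw [hL]; exact Real.one_le_rpow hN1 hα.le
  have hLN : L ≤ N := by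
    rw [hL]
    calc (N : ℝ) ^ α ≤ (N : ℝ) ^ (1 : ℝ) := Real.rpow_le_rpow_of_exponent_le hN1 hα1.le
      _ = N := Real.rpow_one _
  have hmult : ∀ n : ℕ, mult a n = ((Finset.univ : Finset {p // p ∈ PD α N}).filter
      fun p => (n : ZMod (eqv α N p).1) = a (eqv α N p)).card := by
    intro n
    unfold mult
    rw [← Fintype.card_subtype, ← Nat.card_eq_fintype_card]
    apply Nat.card_congr
    exact ((eqv α N).subtypeEquiv fun p => Iff.rfl).symm
  have h1 : ((popular T a).card : ℝ) * T ≤ (PD α N).card * (2 * N / L) := by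
    calc ((popular T a).card : ℝ) * T = ∑ _n ∈ popular T a, T := by
          rw [Finset.sum_const, nsmul_eq_mul]
      _ ≤ ∑ n ∈ popular T a, (mult a n : ℝ) := by
          refine Finset.sum_le_sum fun n hn => ?_
          unfold popular at hn
          rw [Finset.mem_filter] at hn
          exact hn.2
      _ ≤ ∑ n ∈ Finset.Icc 1 N, (mult a n : ℝ) := by
          refine Finset.sum_le_sum_of_subset_of_nonneg ?_ fun _ _ _ => Nat.cast_nonneg _
          unfold popular
          exact Finset.filter_subset _ _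
      _ = ∑ p : {p // p ∈ PD α N}, (hits a (Finset.Icc 1 N) (eqv α N p) : ℝ) := by
          have := Finset.sum_card_bipartiteAbove_eq_sum_card_bipartiteBelow
            (fun (n : ℕ) (p : {p // p ∈ PD α N}) => (n : ZMod (eqv α N p).1) = a (eqv α N p))
            (s := Finset.Icc 1 N) (t := Finset.univ)
          unfold Finset.bipartiteAbove Finset.bipartiteBelow at this
          simp only [hmult]
          unfold hits
          exact_mod_cast this
      _ ≤ ∑ _p : {p // p ∈ PD α N}, (2 * (N : ℝ) / L) := by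
          refine Finset.sum_le_sum fun p _ => ?_
          rw [hits_eq a _ (Finset.Subset.refl _) p]
          refine (Nat.cast_le.2 (Finset.card_le_card Finset.inter_subset_left)).trans ?_
          exact cls_card_le' _ (by linarith) (by rw [hL]; exact (mem_PD.1 p.2).2.1) hLN
      _ = (PD α N).card * (2 * N / L) := by
          rw [Finset.sum_const, nsmul_eq_mul, Finset.card_univ, Fintype.card_coe]
  have hlog0 : 0 ≤ α * Real.log N := mul_nonneg hα.le (Real.log_nonneg hN1)
  calc ((popular T a).card : ℝ) * T * (α * Real.log N) ≤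
        (PD α N).card * (2 * N / L) * (α * Real.log N) := by gcongr
    _ = ((PD α N).card * (α * Real.log N)) * (2 * N / L) := by ring
    _ ≤ (3 * L) * (2 * N / L) :=
        mul_le_mul_of_nonneg_right (by rw [hL]; exact card_primes hα hN) (by positivity)
    _ = 6 * N := by field_simp; ring

/-- `0 < λ`, `0 < θ ≤ 1`, `η > 0`. -/
theorem result (α : ℝ) (h1 : 1 / 2 < α) (h2 : α < 1) (lam th η : ℝ) (hlam : 0 < lam)
    (hth : 0 < th) (hth1 : th ≤ 1) (hη : 0 < η) :
    -- (1) small sets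
    (∃ δ : ℝ, 0 < δ ∧ ∃ N₀ : ℕ, ∀ N : ℕ, N₀ ≤ N →
      (∀ X : ℝ, 1 ≤ X → X ≤ δ * N / Real.log N →
        (numBad α lam th N X : ℝ) ≤ (numChoices α N : ℝ) ^ (1 - th * (1 - α) / α + η) *
          (X / N) ^ (th * numPrimes α N)) ∧
      (numBad α lam th N (δ * N / Real.log N) : ℝ) ≤
        (numChoices α N : ℝ) ^ (1 - th * (1 - α) / α + η)) ∧
    -- (2) sets with a power saving
    (∀ ε : ℝ, 0 < ε → ε ≤ 1 → ∃ N₀ : ℕ, ∀ N : ℕ, N₀ ≤ N →
      (numBad α lam th N ((N : ℝ) ^ (1 - ε)) : ℝ) ≤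
        (numChoices α N : ℝ) ^ (1 - th * (1 - α + ε) / α + η)) ∧
    -- (3) bounded multiplicities
    ∃ T : ℝ, 0 < T ∧ ∃ N₀ : ℕ, ∀ N : ℕ, N₀ ≤ N →
      (Nat.card {a : Choice α N //
        th * numPrimes α N ≤ (numGood lam a (popular T a) : ℝ)} : ℝ) ≤
        (numChoices α N : ℝ) ^ (1 - th * (1 - α) / α + η) := by
  have hα : 0 < α := by linarith
  obtain ⟨δ, hδ, hmain⟩ := main_L h1 h2 hη hlam hth hth1
  obtain ⟨N₁, hN₁⟩ := at_end hth hδ hmain
  obtain ⟨N₀, hN₀⟩ := hmain
  refine ⟨⟨δ, hδ, max N₀ N₁, fun N hN => ⟨hN₀ N ((le_max_left _ _).trans hN),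
    hN₁ N ((le_max_right _ _).trans hN)⟩⟩, fun ε hε hε1 => part2 h1 h2 hη hlam hth hth1 hε hε1,
    6 / (α * δ), by positivity, max N₁ 2, fun N hN => ?_⟩
  have hN2 : 2 ≤ N := (le_max_right _ _).trans hN
  have hN0 : (0 : ℝ) < N := by exact_mod_cast (by omega : 0 < N)
  have hlog : 0 < Real.log (N : ℝ) := Real.log_pos (by exact_mod_cast (by omega : 1 < N))
  refine le_trans ?_ (hN₁ N ((le_max_left _ _).trans hN))
  -- the popular integers
  have hE : ∀ a : Choice α N, ((popular (6 / (α * δ)) a).card : ℝ) ≤ δ * N / Real.log N := by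
    intro a
    have h3 := card_popular (T := 6 / (α * δ)) hα h2 hN2 a
    rw [le_div_iff₀ hlog]
    have h4 : ((popular (6 / (α * δ)) a).card : ℝ) * (6 / (α * δ)) * (α * Real.log N) =
        ((popular (6 / (α * δ)) a).card : ℝ) * Real.log N * (6 / δ) := by field_simp
    rw [h4, ← le_div_iff₀ (by positivity)] at h3
    refine h3.trans (le_of_eq ?_)
    field_simp
  have hfin : Finite (Choice α N) := by
    have h3 : Fintype {p : ℕ // InRange α N p} := Fintype.ofEquiv _ (eqv α N)
    have h4 : ∀ p : {p : ℕ // InRange α N p}, NeZero p.1 := fun p => ⟨p.2.1.ne_zero⟩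
    exact Pi.finite
  have h5 : Nat.card {a : Choice α N //
      th * numPrimes α N ≤ (numGood lam a (popular (6 / (α * δ)) a) : ℝ)} ≤
      numBad α lam th N (δ * N / Real.log N) := by
    unfold numBad
    refine Nat.card_le_card_of_injective (fun a => ⟨a.1, popular (6 / (α * δ)) a.1,
      by unfold popular; exact Finset.filter_subset _ _, hE a.1, a.2⟩) ?_
    intro a b h
    exact Subtype.ext (congrArg (fun x => x.1) h)
  exact_mod_cast h5

end Pool.Agent.Results.MP_bb5cc8_nt.TypicalPortions
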